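import Mathlib

set_option autoImplicit false

open Set

namespace Pool.Agent.Results.MP_ed59c7_co.ExpHitting

section defs

variable {ε : Type} [Fintype ε]

/-- The incidence vector of a set. -/
noncomputable def chi (B : Set ε) : ε → ℝ := B.indicator 1

/-- The base polytope `B(M)`: the convex hull of the incidence vectors of the bases. -/
def basePolytope (M : Matroid ε) : Set (ε → ℝ) := convexHull ℝ (chi '' {B | M.IsBase B})

/-- The dimension of a set: the dimension of the direction of its affine hull. -/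
noncomputable def dim (S : Set (ε → ℝ)) : ℕ := Module.finrank ℝ (vectorSpan ℝ S)

/-- The rank of a set in a matroid, as a natural number. -/
noncomputable def rk (M : Matroid ε) (F : Set ε) : ℕ := (M.eRk F).toNat

/-- The face of the base polytope defined by the inequality `x(F) ≤ rk(F)`. -/
def tightFace (M : Matroid ε) (F : Set ε) : Set (ε → ℝ) :=
  {x | x ∈ basePolytope M ∧ ∑ e, F.indicator x e = rk M F}

/-- `F` is a flacet: a flat whose inequality `x(F) ≤ rk(F)` defines a facet of `B(M)`, i.e. a
nonempty face of dimension one less. -/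
def IsFlacet (M : Matroid ε) (F : Set ε) : Prop :=
  M.IsFlat F ∧ (tightFace M F).Nonempty ∧ dim (tightFace M F) + 1 = dim (basePolytope M)

/-- A hitting family: a family of bases such that every flacet `F` has full intersection with some
member `B`, i.e. `|B ∩ F| = rk(F)`. -/
def IsHittingFamily (M : Matroid ε) (𝒱 : Finset (Set ε)) : Prop :=
  (∀ B ∈ 𝒱, M.IsBase B) ∧ ∀ F, IsFlacet M F → ∃ B ∈ 𝒱, (B ∩ F).ncard = rk M F

/-- The hitting number `h(M)`: the minimum size of a hitting family. -/
noncomputable def hittingNumber (M : Matroid ε) : ℕ :=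
  sInf {k | ∃ 𝒱 : Finset (Set ε), 𝒱.card = k ∧ IsHittingFamily M 𝒱}

/-- The matroid `M` on the ground set `ε` is represented over `ℝ` by the matrix `A`, whose columns
are indexed by `ε`. -/
def Represents {ρ : Type} (A : Matrix ρ ε ℝ) (M : Matroid ε) : Prop :=
  M.E = univ ∧ ∀ I : Set ε, M.Indep I ↔ LinearIndepOn ℝ (fun e => (fun b => A b e)) I

/-- `A` is complete: it is totally unimodular, and appending a column that is not a scalar multiple
of a column of `A` destroys total unimodularity. -/
def IsComplete {ρ : Type} (A : Matrix ρ ε ℝ) : Prop :=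
  A.IsTotallyUnimodular ∧ ∀ c : ρ → ℝ, (¬ ∃ (e : ε) (t : ℝ), c = t • (fun b => A b e)) →
    ¬ (Matrix.fromCols A (Matrix.of fun b (_ : Unit) => c b)).IsTotallyUnimodular

end defs


section general

variable {ε : Type} [Fintype ε] {W : Type} [AddCommGroup W] [Module ℝ W] [FiniteDimensional ℝ W]

lemma finrank_span_image {a : ε → W} {I : Set ε} (hI : LinearIndepOn ℝ a I) :
    Module.finrank ℝ (Submodule.span ℝ (a '' I)) = I.ncard := by
  classical
  have h := finrank_span_eq_card (R := ℝ) (b := fun i : I => a i) hI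
  rw [image_eq_range, h, ← Nat.card_eq_fintype_card]
  rfl

/-- The matroid of a finite family of vectors. -/
noncomputable def vecMatroid (a : ε → W) : Matroid ε :=
  (IndepMatroid.ofFinite (E := univ) (toFinite _) (fun I => LinearIndepOn ℝ a I)
    (linearIndepOn_empty ℝ a)
    (fun _ _ hJ hIJ => hJ.mono hIJ)
    (by
      intro I J hI hJ hlt
      by_contra hcon
      push Not at hcon
      have h1 : Submodule.span ℝ (a '' J) ≤ Submodule.span ℝ (a '' I) := by
        rw [Submodule.span_le]
        rintro _ ⟨e, he, rfl⟩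
        by_cases heI : e ∈ I
        · exact Submodule.subset_span ⟨e, heI, rfl⟩
        · by_contra hns
          exact hcon e he heI (hI.insert hns)
      have h2 := Submodule.finrank_mono h1
      rw [finrank_span_image hI, finrank_span_image hJ] at h2
      omega)
    (fun I _ => subset_univ I)).matroid

lemma vecMatroid_indep (a : ε → W) (I : Set ε) :
    (vecMatroid a).Indep I ↔ LinearIndepOn ℝ a I := Iff.rfl

lemma vecMatroid_E (a : ε → W) : (vecMatroid a).E = univ := rfl

lemma isBase_iff {a : ε → W} (ha : Submodule.span ℝ (range a) = ⊤) (B : Set ε) :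
    (vecMatroid a).IsBase B ↔ LinearIndepOn ℝ a B ∧ Submodule.span ℝ (a '' B) = ⊤ := by
  constructor
  · intro hB
    have hi : LinearIndepOn ℝ a B := hB.indep
    refine ⟨hi, ?_⟩
    rw [eq_top_iff, ← ha, Submodule.span_le]
    rintro _ ⟨e, rfl⟩
    by_cases he : e ∈ B
    · exact Submodule.subset_span ⟨e, he, rfl⟩
    · by_contra hns
      have h1 : (vecMatroid a).Indep (insert e B) := hi.insert hns
      exact he (hB.mem_of_insert_indep h1)
  · rintro ⟨hi, hs⟩
    apply Matroid.Indep.isBase_of_forall_insert (M := vecMatroid a) hi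
    rintro e ⟨-, heB⟩ h
    have h1 := LinearIndepOn.notMem_span_of_insert ((vecMatroid_indep a _).1 h) heB
    rw [hs] at h1
    exact h1 Submodule.mem_top

lemma ncard_of_isBase {a : ε → W} (ha : Submodule.span ℝ (range a) = ⊤) {B : Set ε}
    (hB : (vecMatroid a).IsBase B) : B.ncard = Module.finrank ℝ W := by
  rw [isBase_iff ha] at hB
  rw [← finrank_span_image hB.1, hB.2, finrank_top]

lemma mem_span_of_isBasis {a : ε → W} {I X : Set ε} (h : (vecMatroid a).IsBasis I X) {e : ε}
    (he : e ∈ X) : a e ∈ Submodule.span ℝ (a '' I) := by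
  by_cases heI : e ∈ I
  · exact Submodule.subset_span ⟨e, heI, rfl⟩
  · by_contra hns
    have h1 : LinearIndepOn ℝ a I := h.indep
    exact heI (h.mem_of_insert_indep he (h1.insert hns))

/-- The zero set of a functional is a flat. -/
lemma isFlat_ker (a : ε → W) (φ : W →ₗ[ℝ] ℝ) : (vecMatroid a).IsFlat {e | φ (a e) = 0} := by
  constructor
  · intro I X hI hX e he
    have h1 := mem_span_of_isBasis hX he
    have h2 : Submodule.span ℝ (a '' I) ≤ LinearMap.ker φ := by
      rw [Submodule.span_le]
      rintro _ ⟨i, hi, rfl⟩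
      exact hI.subset hi
    exact h2 h1
  · exact subset_univ _

end general

section tu

/-- The entry of the incidence matrix of a digraph with a deleted vertex `none`. -/
def inc {V E : Type} [DecidableEq V] (hd tl : E → Option V) (v : V) (e : E) : ℝ :=
  (if hd e = some v then 1 else 0) - (if tl e = some v then 1 else 0)

/-- Incidence matrices of digraphs are totally unimodular. -/
lemma incidence_tu {V E : Type} [DecidableEq V] (hd tl : E → Option V) :
    (Matrix.of (inc hd tl)).IsTotallyUnimodular := by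
  intro k
  induction k with
  | zero => 
    intro f g _ _
    exact ⟨1, by simp⟩
  | succ k ih =>
    intro f g hf hg
    set M : Matrix (Fin (k + 1)) (Fin (k + 1)) ℝ := (Matrix.of (inc hd tl)).submatrix f g with hM
    by_cases hall : ∀ j, ∑ i, M i j = 0
    · refine ⟨0, ?_⟩
      have : M.det = 0 := by
        rw [← Matrix.exists_vecMul_eq_zero_iff]
        refine ⟨1, one_ne_zero, ?_⟩
        ext j
        simpa [Matrix.vecMul, dotProduct] using hall j
      rw [this]
      simp
    · push Not at hall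
      obtain ⟨j, hj⟩ := hall
      have hMij : ∀ i, M i j = (if hd (g j) = some (f i) then 1 else 0) -
          (if tl (g j) = some (f i) then 1 else 0) := fun i => rfl
      have hone : ∀ (o : Option V) (i1 : Fin (k + 1)), o = some (f i1) → ∀ i,
          (if o = some (f i) then (1 : ℝ) else 0) = if i = i1 then 1 else 0 := by
        intro o i1 h1 i
        by_cases hi : i = i1
        · simp [hi, h1]
        · rw [if_neg hi, if_neg]
          rw [h1]
          intro h2
          exact hi (hf (Option.some.inj h2)).symm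
      -- there is a unique nonzero entry in column `j`
      obtain ⟨i0, s, hs, hi0⟩ : ∃ i0, ∃ s : ℝ, (s = 1 ∨ s = -1) ∧ ∀ i, M i j = if i = i0 then s else 0 := by
        by_cases h1 : ∃ i1, hd (g j) = some (f i1)
        · obtain ⟨i1, h1⟩ := h1
          by_cases h2 : ∃ i2, tl (g j) = some (f i2)
          · obtain ⟨i2, h2⟩ := h2
            exfalso
            apply hj
            simp_rw [hMij, hone _ i1 h1, hone _ i2 h2]
            simp
          · push Not at h2
            refine ⟨i1, 1, Or.inl rfl, fun i => ?_⟩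
            rw [hMij, hone _ i1 h1, if_neg (h2 i), sub_zero]
        · push Not at h1
          by_cases h2 : ∃ i2, tl (g j) = some (f i2)
          · obtain ⟨i2, h2⟩ := h2
            refine ⟨i2, -1, Or.inr rfl, fun i => ?_⟩
            rw [hMij, hone _ i2 h2, if_neg (h1 i)]
            by_cases hi : i = i2 <;> simp [hi]
          · push Not at h2
            exfalso
            apply hj
            simp_rw [hMij]
            simp [h1, h2]
      rw [Matrix.det_succ_column M j]
      rw [Finset.sum_eq_single i0]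
      · rw [hi0 i0, if_pos rfl]
        have hsub : M.submatrix i0.succAbove j.succAbove =
            (Matrix.of (inc hd tl)).submatrix (f ∘ i0.succAbove) (g ∘ j.succAbove) := rfl
        rw [hsub]
        obtain ⟨t, ht⟩ := ih (f ∘ i0.succAbove) (g ∘ j.succAbove)
          (hf.comp Fin.succAbove_right_injective) (hg.comp Fin.succAbove_right_injective)
        rw [← ht]
        rcases neg_one_pow_eq_or ℝ ((i0 : ℕ) + (j : ℕ)) with h | h <;> rcases hs with rfl | rfl <;>
          rw [h]
        · exact ⟨t, by simp⟩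
        · exact ⟨-t, by simp⟩
        · exact ⟨-t, by simp⟩
        · exact ⟨t, by simp⟩
      · intro b _ hb
        rw [hi0 b, if_neg hb]
        ring
      · simp

/-- Pivoting preserves total unimodularity. -/
lemma tu_of_mul {V ρ : Type} [Fintype V] [DecidableEq V] {B : Matrix V V ℝ} {C X : Matrix V ρ ℝ}
    (h : (Matrix.fromCols B C).IsTotallyUnimodular) (hB : B.det ≠ 0) (hX : B * X = C) :
    X.IsTotallyUnimodular := by
  classical
  have hfin := (Matrix.isTotallyUnimodular_iff_fintype (Matrix.fromCols B C)).1 h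
  intro k f g hf hg
  set e : Fin k ⊕ ((range f)ᶜ : Set V) ≃ V :=
    ((Equiv.ofInjective f hf).sumCongr (Equiv.refl _)).trans (Equiv.Set.sumCompl (range f)) with he
  have hel : ∀ i, e (Sum.inl i) = f i := fun i => rfl
  have her : ∀ w, e (Sum.inr w) = w := fun i => rfl
  set Z : Matrix (Fin k ⊕ ((range f)ᶜ : Set V)) (Fin k ⊕ ((range f)ᶜ : Set V)) ℝ :=
    Matrix.fromBlocks (X.submatrix f g) 0 (X.submatrix Subtype.val g) 1 with hZ
  have hZdet : Z.det = (X.submatrix f g).det := by
    rw [hZ, Matrix.det_fromBlocks_zero₁₂, Matrix.det_one, mul_one]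
  have hprod : B.submatrix e e * Z = (Matrix.fromCols B C).submatrix e
      (Sum.elim (fun i => Sum.inr (g i)) (fun w : ((range f)ᶜ : Set V) => Sum.inl (w : V))) := by
    ext a c
    rw [Matrix.mul_apply]
    rcases c with i | w
    · simp only [Matrix.submatrix_apply, Sum.elim_inl, Matrix.fromCols_apply_inr]
      rw [← hX, Matrix.mul_apply, ← Equiv.sum_comp e]
      apply Finset.sum_congr rfl
      intro d _
      rcases d with d | d
      · rfl
      · rfl
    · simp only [Matrix.submatrix_apply, Sum.elim_inr, Matrix.fromCols_apply_inl]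
      rw [Fintype.sum_sum_type]
      simp [hZ, Matrix.one_apply, her]
  have h1 := hfin _ (fun v : V => v) (fun v : V => (Sum.inl v : V ⊕ ρ))
  have h2 := hfin _ e (Sum.elim (fun i => Sum.inr (g i)) (fun w : ((range f)ᶜ : Set V) => Sum.inl (w : V)))
  rw [← hprod, Matrix.det_mul, Matrix.det_submatrix_equiv_self, hZdet] at h2
  have h3 : (Matrix.fromCols B C).submatrix (fun v : V => v) (fun v : V => (Sum.inl v : V ⊕ ρ)) = B := by
    ext v w
    rfl
  rw [h3] at h1
  obtain ⟨s, hs⟩ := h1
  obtain ⟨t, ht⟩ := h2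
  rw [← hs] at ht hB
  rcases s with _ | _ | _
  · simp at hB
  · refine ⟨-t, ?_⟩
    simp at ht ⊢
    linarith
  · refine ⟨t, ?_⟩
    simpa using ht

end tu

section functional

/-- If `[A | c]` is totally unimodular, then every functional `v ⬝ᵥ ·` which is determined up to a
scalar by its zeros among the columns of `A`, and takes a value `±1` on some column of `A`, takes
a value in `{0, 1, -1}` at `c`. -/
lemma functional_of_tu {ρ ε : Type} [Fintype ρ] [DecidableEq ρ] [Fintype ε]
    {A : Matrix ρ ε ℝ} {c : ρ → ℝ}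
    (h : (Matrix.fromCols A (Matrix.of fun b (_ : Unit) => c b)).IsTotallyUnimodular)
    (v : ρ → ℝ) (hv : ∃ e, v ⬝ᵥ (fun b => A b e) = 1 ∨ v ⬝ᵥ (fun b => A b e) = -1)
    (hel : ∀ v' : ρ → ℝ, (∀ e, v ⬝ᵥ (fun b => A b e) = 0 → v' ⬝ᵥ (fun b => A b e) = 0) →
      ∃ t : ℝ, v' = t • v) :
    ∃ s : SignType, (s : ℝ) = v ⬝ᵥ c := by
  classical
  set a : ε → ρ → ℝ := fun e b => A b e with ha
  have hfin := (Matrix.isTotallyUnimodular_iff_fintype _).1 h
  -- the functional `v ⬝ᵥ ·`
  set φ : (ρ → ℝ) →ₗ[ℝ] ℝ := dotProductBilin ℝ ℝ v with hφ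
  have hφa : ∀ w, φ w = v ⬝ᵥ w := fun w => rfl
  obtain ⟨e0, he0⟩ := hv
  have he0' : φ (a e0) = 1 ∨ φ (a e0) = -1 := he0
  have he0ne : φ (a e0) ≠ 0 := by
    rcases he0' with h | h <;> rw [h] <;> norm_num
  -- the zeros of `φ`
  set K : Type := {e : ε // φ (a e) = 0} with hK
  obtain ⟨κ, k, hk, hspan, hli⟩ := exists_linearIndependent' ℝ (fun e : K => a e)
  have hspan' : Submodule.span ℝ (range ((fun e : K => a e) ∘ k)) = LinearMap.ker φ := by
    rw [hspan]
    apply le_antisymm
    · rw [Submodule.span_le]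
      rintro _ ⟨e, rfl⟩
      exact e.2
    · intro w hw
      by_contra hnot
      obtain ⟨f, hf1, hf2⟩ := Submodule.exists_le_ker_of_notMem hnot
      -- represent `f` by a vector
      set v' : ρ → ℝ := fun b => f (Pi.single b 1) with hv'
      have hfv' : ∀ w, f w = v' ⬝ᵥ w := by
        intro w
        conv_lhs => rw [← Finset.univ_sum_single w]
        rw [map_sum, dotProduct]
        apply Finset.sum_congr rfl
        intro b _
        rw [hv']
        have : (Pi.single b (w b) : ρ → ℝ) = w b • Pi.single b 1 := by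
          rw [← Pi.single_smul']
          simp
        rw [this, map_smul, smul_eq_mul, mul_comm]
      obtain ⟨t, ht⟩ := hel v' (by
        intro e he
        rw [← hfv']
        exact hf2 (Submodule.subset_span ⟨⟨e, he⟩, rfl⟩))
      apply hf1
      rw [hfv', ht, smul_dotProduct, ← hφa, LinearMap.mem_ker.1 hw, smul_zero]
  have hκfin : Finite κ := Finite.of_injective k hk
  have := Fintype.ofFinite κ
  -- a basis indexed by `Option κ`
  set b' : Option κ → ρ → ℝ := fun o => o.elim (a e0) (fun i => a (k i)) with hb'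
  have hbli : LinearIndependent ℝ b' := by
    rw [linearIndependent_option]
    refine ⟨hli, ?_⟩
    have : (b' ∘ (some : κ → Option κ)) = ((fun e : K => a e) ∘ k) := rfl
    rw [show (b' ∘ ((↑) : κ → Option κ)) = ((fun e : K => a e) ∘ k) from rfl, hspan']
    exact he0ne
  have hcard : Fintype.card (Option κ) = Fintype.card ρ := by
    apply le_antisymm
    · have := hbli.fintype_card_le_finrank
      simpa using this
    · have h1 : Module.finrank ℝ (LinearMap.ker φ) = Fintype.card κ := by
        rw [← hspan', finrank_span_eq_card hli]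
      have h2 := LinearMap.finrank_range_add_finrank_ker φ
      have h3 : Module.finrank ℝ (LinearMap.range φ) ≤ 1 := by
        have := Submodule.finrank_le (LinearMap.range φ)
        simpa using this
      rw [Module.finrank_fintype_fun_eq_card] at h2
      rw [Fintype.card_option]
      omega
  let eq : ρ ≃ Option κ := Fintype.equivOfCardEq hcard.symm
  set N : Matrix ρ ρ ℝ := Matrix.of fun i j => b' (eq j) i with hN
  set b0 : ρ := eq.symm none with hb0
  -- the determinant functional
  set D : (ρ → ℝ) →ₗ[ℝ] ℝ := (LinearMap.proj b0).comp (Matrix.cramer N) with hD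
  have hDa : ∀ w, D w = (N.updateCol b0 w).det := fun w => by
    simp [hD, Matrix.cramer_apply]
  -- it vanishes on `ker φ`
  have hDk : ∀ w, φ w = 0 → D w = 0 := by
    have : LinearMap.ker φ ≤ LinearMap.ker D := by
      rw [← hspan', Submodule.span_le]
      rintro _ ⟨i, rfl⟩
      rw [SetLike.mem_coe, LinearMap.mem_ker, hDa]
      have hne : eq.symm (some i) ≠ b0 := by
        rw [hb0]
        intro h
        have := eq.symm.injective h
        simp at this
      apply Matrix.det_zero_of_column_eq hne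
      intro l
      rw [Matrix.updateCol_ne hne, Matrix.updateCol_self]
      simp [hN, hb']
    intro w hw
    exact this hw
  -- so it is a multiple of `φ`
  have hDφ : ∀ w, D w * φ (a e0) = D (a e0) * φ w := by
    intro w
    have h1 : φ (φ (a e0) • w - φ w • a e0) = 0 := by
      rw [map_sub, map_smul, map_smul]
      simp only [smul_eq_mul]
      ring
    have h2 := hDk _ h1
    rw [map_sub, map_smul, map_smul] at h2
    simp only [smul_eq_mul] at h2
    linarith
  have hsel : ∀ (w : ρ → ℝ) (o : ε ⊕ Unit),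
      (∀ b, Matrix.fromCols A (Matrix.of fun b (_ : Unit) => c b) b o = w b) →
      ∃ s : SignType, (s : ℝ) = D w := by
    intro w o ho
    have h1 := hfin _ (fun b : ρ => b) (fun b => (eq b).elim o (fun i => Sum.inl (k i : ε)))
    obtain ⟨s, hs⟩ := h1
    refine ⟨s, ?_⟩
    rw [hs, hDa]
    congr 1
    ext i j
    rw [Matrix.submatrix_apply]
    by_cases hj : j = b0
    · subst hj
      rw [Matrix.updateCol_self]
      simp only [hb0, Equiv.apply_symm_apply, Option.elim_none]
      exact ho i
    · rw [Matrix.updateCol_ne hj]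
      rcases hq : eq j with _ | i'
      · exact absurd (by rw [hb0, ← hq, Equiv.symm_apply_apply]) hj
      · simp [hN, hb', hq, ha]
  obtain ⟨s1, hs1⟩ := hsel (a e0) (Sum.inl e0) (fun b => rfl)
  obtain ⟨s2, hs2⟩ := hsel c (Sum.inr ()) (fun b => rfl)
  have hne : D (a e0) ≠ 0 := by
    rw [hDa]
    have h1 : N.updateCol b0 (a e0) = N := by
      ext i j
      by_cases hj : j = b0
      · subst hj
        rw [Matrix.updateCol_self]
        simp [hN, hb', hb0]
      · rw [Matrix.updateCol_ne hj]
    rw [h1]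
    have h2 : LinearIndependent ℝ N.col := by
      have : N.col = b' ∘ eq := by
        ext j i
        simp [hN]
      rw [this]
      exact hbli.comp _ eq.injective
    rw [Matrix.linearIndependent_cols_iff_isUnit, Matrix.isUnit_iff_isUnit_det] at h2
    exact h2.ne_zero
  have hc := hDφ c
  rw [← hs1] at hc hne
  rw [← hs2] at hc
  rw [← hφa]
  rcases he0' with h1 | h1 <;> rw [h1] at hc <;> rcases s1 with _ | _ | _ <;> simp at hc hne
  · exact ⟨-s2, by simp; linarith⟩
  · exact ⟨s2, by linarith⟩
  · exact ⟨s2, by linarith⟩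
  · exact ⟨-s2, by simp; linarith⟩

end functional

/-- The elements of the matroid (edges of the graph): `g`, the level edges and the unit edges. -/
inductive Edge (m : ℕ) : Type
  | g : Edge m
  | lev (j : Fin (m + 1)) (b : Bool) : Edge m
  | un (j : Fin m) (b b' : Bool) : Edge m
  deriving DecidableEq, Fintype

/-- The rows of the matrix. -/
inductive Row (m : ℕ) : Type
  | g : Row m
  | f (j : Fin (m + 1)) : Row m
  | y (j : Fin m) : Row m
  deriving DecidableEq, Fintype

/-- The vertices of the graph except one. -/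
inductive Vtx (m : ℕ) : Type
  | l : Vtx m
  | L (j : Fin m) (b : Bool) : Vtx m
  | R (j : Fin m) (b : Bool) : Vtx m
  deriving DecidableEq, Fintype

section matrix

variable {m : ℕ}

/-- The columns of the matrix. -/
noncomputable def col : Edge m → Row m → ℝ
  | .g => Pi.single .g 1
  | .lev j false => Pi.single (.f j) 1
  | .lev j true => Pi.single .g 1 - Pi.single (.f j) 1
  | .un j false false => Pi.single (.y j) 1
  | .un j false true => Pi.single (.f j.castSucc) 1 - Pi.single (.y j) 1
  | .un j true false => Pi.single (.f j.succ) 1 - Pi.single (.y j) 1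
  | .un j true true => Pi.single .g 1 - Pi.single (.f j.castSucc) 1 - Pi.single (.f j.succ) 1
      + Pi.single (.y j) 1

/-- The matrix. -/
noncomputable def mat (m : ℕ) : Matrix (Row m) (Edge m) ℝ := Matrix.of fun b e => col e b

/-- Heads of the edges (`none` is the deleted vertex). -/
def hd : Edge m → Option (Vtx m)
  | .g => some .l
  | .lev j b => Fin.lastCases none (fun i => some (.L i b)) j
  | .un j _ b' => some (.R j b')

/-- Tails of the edges (`none` is the deleted vertex). -/
def tl : Edge m → Option (Vtx m)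
  | .g => none
  | .lev j b => Fin.cases (some .l) (fun i => some (.R i b)) j
  | .un j b _ => some (.L j b)

@[simp] lemma hd_last (b : Bool) : hd (.lev (Fin.last m) b) = none := by simp [hd]
@[simp] lemma hd_castSucc (i : Fin m) (b : Bool) : hd (.lev i.castSucc b) = some (.L i b) := by
  simp [hd]
@[simp] lemma tl_zero (b : Bool) : tl (.lev (0 : Fin (m + 1)) b) = some .l := by simp [tl]
@[simp] lemma tl_succ (i : Fin m) (b : Bool) : tl (.lev i.succ b) = some (.R i b) := by
  simp [tl]

/-- The tree edges: the edge from each vertex towards the deleted vertex. -/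
def pe : Vtx m → Edge m
  | .l => .lev 0 true
  | .L j false => .un j false true
  | .L j true => .un j true true
  | .R j false => .un j true false
  | .R j true => .lev j.succ true

/-- The non-tree edges. -/
def io : Row m → Edge m
  | .g => .g
  | .f j => .lev j false
  | .y j => .un j false false

lemma col_io (b : Row m) : col (io b) = Pi.single b 1 := by
  cases b <;> rfl

/-- The tree and non-tree edges partition the edges. -/
noncomputable def edgeEquiv (m : ℕ) : Vtx m ⊕ Row m ≃ Edge m := by
  refine Equiv.ofBijective (Sum.elim pe io) ⟨?_, ?_⟩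
  · rintro (a | a) (b | b) h
    · rcases a with _ | ⟨i, _ | _⟩ | ⟨i, _ | _⟩ <;> rcases b with _ | ⟨j, _ | _⟩ | ⟨j, _ | _⟩ <;>
        simp [pe] at h ⊢ <;> try assumption
      · exact absurd h (Fin.succ_ne_zero _).symm
    · rcases a with _ | ⟨i, _ | _⟩ | ⟨i, _ | _⟩ <;> cases b <;> simp [pe, io] at h
    · rcases b with _ | ⟨i, _ | _⟩ | ⟨i, _ | _⟩ <;> cases a <;> simp [pe, io] at h
    · cases a <;> cases b <;> simp [io] at h ⊢ <;> assumption
  · rintro (_ | ⟨j, _ | _⟩ | ⟨j, _ | _, _ | _⟩)
    · exact ⟨Sum.inr .g, rfl⟩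
    · exact ⟨Sum.inr (.f j), rfl⟩
    · refine Fin.cases ⟨Sum.inl .l, rfl⟩ (fun i => ⟨Sum.inl (.R i true), rfl⟩) j
    · exact ⟨Sum.inr (.y j), rfl⟩
    · exact ⟨Sum.inl (.L j false), rfl⟩
    · exact ⟨Sum.inl (.R j false), rfl⟩
    · exact ⟨Sum.inl (.L j true), rfl⟩

lemma edgeEquiv_inl (w : Vtx m) : edgeEquiv m (Sum.inl w) = pe w := rfl
lemma edgeEquiv_inr (b : Row m) : edgeEquiv m (Sum.inr b) = io b := rfl

lemma hd_L (e : Edge m) (j : Fin m) (b : Bool) : hd e = some (.L j b) ↔ e = .lev j.castSucc b := by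
  constructor
  · rcases e with _ | ⟨i, c⟩ | ⟨i, c, c'⟩
    · simp [hd]
    · refine Fin.lastCases (by simp) (fun i => ?_) i
      simp
    · simp [hd]
  · rintro rfl
    simp

lemma tl_L (e : Edge m) (j : Fin m) (b : Bool) :
    tl e = some (.L j b) ↔ (e = .un j b false ∨ e = .un j b true) := by
  constructor
  · rcases e with _ | ⟨i, c⟩ | ⟨i, c, c'⟩
    · simp [tl]
    · refine Fin.cases (by simp) (fun i => ?_) i
      simp
    · intro h
      simp only [tl, Option.some.injEq, Vtx.L.injEq] at h
      obtain ⟨rfl, rfl⟩ := h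
      cases c' <;> simp
  · rintro (rfl | rfl) <;> rfl

lemma hd_R (e : Edge m) (j : Fin m) (b : Bool) :
    hd e = some (.R j b) ↔ (e = .un j false b ∨ e = .un j true b) := by
  constructor
  · rcases e with _ | ⟨i, c⟩ | ⟨i, c, c'⟩
    · simp [hd]
    · refine Fin.lastCases (by simp) (fun i => ?_) i
      simp
    · intro h
      simp only [hd, Option.some.injEq, Vtx.R.injEq] at h
      obtain ⟨rfl, rfl⟩ := h
      cases c <;> simp
  · rintro (rfl | rfl) <;> rfl

lemma tl_R (e : Edge m) (j : Fin m) (b : Bool) : tl e = some (.R j b) ↔ e = .lev j.succ b := by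
  constructor
  · rcases e with _ | ⟨i, c⟩ | ⟨i, c, c'⟩
    · simp [tl]
    · refine Fin.cases (by simp) (fun i => ?_) i
      simp
    · simp [tl]
  · rintro rfl
    simp

lemma hd_l (e : Edge m) : hd e = some .l ↔ e = .g := by
  constructor
  · rcases e with _ | ⟨i, c⟩ | ⟨i, c, c'⟩
    · simp
    · refine Fin.lastCases (by simp) (fun i => ?_) i
      simp
    · simp [hd]
  · rintro rfl
    rfl

lemma tl_l (e : Edge m) : tl e = some .l ↔ (e = .lev 0 false ∨ e = .lev 0 true) := by
  constructor
  · rcases e with _ | ⟨i, c⟩ | ⟨i, c, c'⟩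
    · simp [tl]
    · refine Fin.cases ?_ (fun i => ?_) i
      · cases c <;> simp
      · simp
    · simp [tl]
  · rintro (rfl | rfl) <;> simp

/-- Conservation of the columns at each vertex. -/
lemma conservation (v : Vtx m) (r : Row m) : ∑ e, inc hd tl v e * col e r = 0 := by
  have hor : ∀ (p q : Prop) [Decidable p] [Decidable q], ¬ (p ∧ q) →
      (if p ∨ q then (1 : ℝ) else 0) = (if p then 1 else 0) + (if q then 1 else 0) := by
    intro p q _ _ h
    by_cases hp : p <;> by_cases hq : q <;> simp_all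
  unfold inc
  simp_rw [sub_mul]
  rw [Finset.sum_sub_distrib, sub_eq_zero]
  rcases v with _ | ⟨j, b⟩ | ⟨j, b⟩
  · simp_rw [hd_l, tl_l]
    have h : ∀ x : Edge m, (if x = .lev 0 false ∨ x = .lev 0 true then (1 : ℝ) else 0) =
        (if x = .lev 0 false then 1 else 0) + (if x = .lev 0 true then 1 else 0) :=
      fun x => hor _ _ (by rintro ⟨rfl, h⟩; simp at h)
    simp_rw [h, add_mul]
    rw [Finset.sum_add_distrib]
    simp [col]
  · simp_rw [hd_L, tl_L]
    have h : ∀ x : Edge m, (if x = .un j b false ∨ x = .un j b true then (1 : ℝ) else 0) =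
        (if x = .un j b false then 1 else 0) + (if x = .un j b true then 1 else 0) :=
      fun x => hor _ _ (by rintro ⟨rfl, h⟩; simp at h)
    simp_rw [h, add_mul]
    rw [Finset.sum_add_distrib]
    cases b <;> simp [col]
  · simp_rw [hd_R, tl_R]
    have h : ∀ x : Edge m, (if x = .un j false b ∨ x = .un j true b then (1 : ℝ) else 0) =
        (if x = .un j false b then 1 else 0) + (if x = .un j true b then 1 else 0) :=
      fun x => hor _ _ (by rintro ⟨rfl, h⟩; simp at h)
    simp_rw [h, add_mul]
    rw [Finset.sum_add_distrib]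
    cases b
    · simp [col]
    · simp [col]
      ring

/-- The tree part of the incidence matrix. -/
def Bm (m : ℕ) : Matrix (Vtx m) (Vtx m) ℝ := Matrix.of fun v w => inc hd tl v (pe w)

/-- The non-tree part of the incidence matrix (with reversed orientation). -/
def Cm (m : ℕ) : Matrix (Vtx m) (Row m) ℝ := Matrix.of fun v b => inc tl hd v (io b)

/-- The tree part of the matrix `mat`, transposed. -/
noncomputable def Xm (m : ℕ) : Matrix (Vtx m) (Row m) ℝ := Matrix.of fun w b => col (pe w) b

lemma Bm_mul_Xm : Bm m * Xm m = Cm m := by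
  ext v r
  have h := conservation v r
  rw [← Equiv.sum_comp (edgeEquiv m), Fintype.sum_sum_type] at h
  simp_rw [edgeEquiv_inl, edgeEquiv_inr, col_io] at h
  rw [Matrix.mul_apply]
  have h2 : ∑ x : Row m, inc hd tl v (io x) * (Pi.single x 1 : Row m → ℝ) r =
      inc hd tl v (io r) := by
    rw [Finset.sum_eq_single r]
    · simp
    · intro b _ hb
      rw [Pi.single_eq_of_ne (Ne.symm hb), mul_zero]
    · simp
  rw [h2] at h
  have h3 : inc tl hd v (io r) = - inc hd tl v (io r) := by
    unfold inc
    ring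
  simp only [Bm, Xm, Cm, Matrix.of_apply]
  rw [h3]
  linarith

lemma sum_mul_inc (y : Vtx m → ℝ) (e : Edge m) :
    ∑ v, y v * inc hd tl v e = (hd e).elim 0 y - (tl e).elim 0 y := by
  unfold inc
  simp_rw [mul_sub]
  rw [Finset.sum_sub_distrib]
  congr 1
  · rcases hd e with _ | v <;> simp
  · rcases tl e with _ | v <;> simp

lemma Bm_det : (Bm m).det ≠ 0 := by
  intro hdet
  rw [← Matrix.exists_vecMul_eq_zero_iff] at hdet
  obtain ⟨y, hy, h⟩ := hdet
  apply hy
  have hw : ∀ w, (hd (pe w)).elim 0 y = (tl (pe w)).elim 0 y := by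
    intro w
    have := congrFun h w
    simp only [Matrix.vecMul, dotProduct, Bm, Matrix.of_apply, Pi.zero_apply] at this
    rw [sum_mul_inc] at this
    linarith
  have hlev : ∀ i : Fin (m + 1), (hd (.lev i true)).elim 0 y = (tl (.lev i true)).elim 0 y := by
    intro i
    refine Fin.cases (hw .l) (fun i => hw (.R i true)) i
  have hunit : ∀ i : Fin m, y (.R i true) = y (.L i true) := by
    intro i
    simpa [pe, hd, tl] using hw (.L i true)
  have htl : ∀ i : Fin (m + 1), (tl (.lev i true)).elim 0 y = 0 := by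
    intro i
    refine Fin.reverseInduction ?_ (fun i hi => ?_) i
    · rw [← hlev]
      simp
    · rw [← hlev]
      simp only [hd_castSucc, Option.elim_some]
      rw [← hunit]
      simpa using hi
  have hR : ∀ i : Fin m, y (.R i true) = 0 := fun i => by simpa using htl i.succ
  funext v
  rcases v with _ | ⟨j, _ | _⟩ | ⟨j, _ | _⟩
  · simpa using htl 0
  · have := hw (.L j false)
    simp [pe, hd, tl, hR] at this
    simpa using this.symm
  · rw [← hunit, hR]
    rfl
  · have := hw (.R j false)
    simp only [pe, hd, tl, Option.elim_some] at this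
    rw [this, ← hunit, hR]
    rfl
  · rw [hR]
    rfl

lemma mat_tu : (mat m).IsTotallyUnimodular := by
  have h1 : (Matrix.fromCols (Bm m) (Cm m)).IsTotallyUnimodular := by
    have h := incidence_tu (V := Vtx m) (Sum.elim (fun w => hd (pe w)) (fun b => tl (io b)) :
      Vtx m ⊕ Row m → Option (Vtx m)) (Sum.elim (fun w => tl (pe w)) (fun b => hd (io b)))
    convert h using 1
    ext v e
    rcases e with e | e <;> rfl
  have h2 : (Xm m).IsTotallyUnimodular := tu_of_mul h1 Bm_det Bm_mul_Xm
  have h3 : (Matrix.fromCols (Xm m).transpose (1 : Matrix (Row m) (Row m) ℝ)).IsTotallyUnimodular := by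
    rw [Matrix.fromCols_one_isTotallyUnimodular_iff]
    exact h2.transpose
  have h4 : (mat m) = (Matrix.fromCols (Xm m).transpose (1 : Matrix (Row m) (Row m) ℝ)).submatrix
      id (edgeEquiv m).symm := by
    ext b e
    obtain ⟨e, rfl⟩ := (edgeEquiv m).surjective e
    rw [Matrix.submatrix_apply, Equiv.symm_apply_apply]
    rcases e with w | r
    · rfl
    · simp only [mat, Matrix.of_apply, edgeEquiv_inr, col_io, id_eq, Matrix.fromCols_apply_inr,
        Matrix.one_apply]
      rw [Pi.single_apply]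
  rw [h4]
  exact h3.submatrix _ _

end matrix

section complete

variable {m : ℕ}

/-- Sums over the rows. -/
def rowEquiv (m : ℕ) : Unit ⊕ (Fin (m + 1) ⊕ Fin m) ≃ Row m where
  toFun
    | .inl _ => .g
    | .inr (.inl j) => .f j
    | .inr (.inr j) => .y j
  invFun
    | .g => .inl ()
    | .f j => .inr (.inl j)
    | .y j => .inr (.inr j)
  left_inv := by rintro (_ | _ | _) <;> rfl
  right_inv := by rintro (_ | _ | _) <;> rfl

lemma row_sum (F : Row m → ℝ) : ∑ r, F r = F .g + (∑ j, F (.f j) + ∑ j, F (.y j)) := by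
  rw [← Equiv.sum_comp (rowEquiv m), Fintype.sum_sum_type, Fintype.sum_sum_type]
  simp [rowEquiv]

lemma card_row (m : ℕ) : Fintype.card (Row m) = 2 * m + 2 := by
  rw [← Fintype.card_congr (rowEquiv m)]
  simp
  omega

lemma flow_g (v : Row m → ℝ) : v ⬝ᵥ col .g = v .g := by simp [col]
lemma flow_lf (v : Row m → ℝ) (j : Fin (m + 1)) : v ⬝ᵥ col (.lev j false) = v (.f j) := by
  simp [col]
lemma flow_lt (v : Row m → ℝ) (j : Fin (m + 1)) : v ⬝ᵥ col (.lev j true) = v .g - v (.f j) := by
  simp [col]
lemma flow_ff (v : Row m → ℝ) (j : Fin m) : v ⬝ᵥ col (.un j false false) = v (.y j) := by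
  simp [col]
lemma flow_ft (v : Row m → ℝ) (j : Fin m) :
    v ⬝ᵥ col (.un j false true) = v (.f j.castSucc) - v (.y j) := by
  simp [col]
lemma flow_tf (v : Row m → ℝ) (j : Fin m) :
    v ⬝ᵥ col (.un j true false) = v (.f j.succ) - v (.y j) := by
  simp [col]
lemma flow_tt (v : Row m → ℝ) (j : Fin m) :
    v ⬝ᵥ col (.un j true true) = v .g - v (.f j.castSucc) - v (.f j.succ) + v (.y j) := by
  simp [col, dotProduct_add, dotProduct_sub]

lemma elem_c (v : Row m → ℝ) (hg : v .g = 1) (hf : ∀ j, v (.f j) = 0 ∨ v (.f j) = 1)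
    (hy : ∀ j, v (.y j) = 0 ∨ (v (.y j) = 1 ∧ (v (.f j.castSucc) = 1 ∨ v (.f j.succ) = 1)) ∨
      (v (.y j) = -1 ∧ v (.f j.castSucc) = 0 ∧ v (.f j.succ) = 0))
    (v' : Row m → ℝ) (h : ∀ e, v ⬝ᵥ col e = 0 → v' ⬝ᵥ col e = 0) : ∃ t : ℝ, v' = t • v := by
  have hf' : ∀ j, v' (.f j) = v' .g * v (.f j) := by
    intro j
    rcases hf j with h0 | h1
    · have := h (.lev j false) (by rw [flow_lf, h0])
      rw [flow_lf] at this
      rw [this, h0, mul_zero]
    · have := h (.lev j true) (by rw [flow_lt, h1, hg, sub_self])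
      rw [flow_lt] at this
      rw [h1]
      linarith
  refine ⟨v' .g, ?_⟩
  funext r
  rcases r with _ | j | j
  · simp [hg]
  · simp [hf']
  · simp only [Pi.smul_apply, smul_eq_mul]
    rcases hy j with h0 | ⟨h1, h2 | h2⟩ | ⟨h1, h2, h3⟩
    · have := h (.un j false false) (by rw [flow_ff, h0])
      rw [flow_ff] at this
      rw [this, h0, mul_zero]
    · have := h (.un j false true) (by rw [flow_ft, h1, h2, sub_self])
      rw [flow_ft, hf', h2] at this
      rw [h1]
      linarith
    · have := h (.un j true false) (by rw [flow_tf, h1, h2, sub_self])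
      rw [flow_tf, hf', h2] at this
      rw [h1]
      linarith
    · have := h (.un j true true) (by rw [flow_tt, h1, h2, h3, hg]; norm_num)
      rw [flow_tt, hf', hf', h2, h3] at this
      rw [h1]
      linarith

lemma elem_b (v : Row m → ℝ) (hg : v .g = 0) (hf : ∀ j, v (.f j) = 1 ∨ v (.f j) = -1)
    (hy : ∀ j, (v (.f j.castSucc) = v (.f j.succ) ∧ v (.y j) = v (.f j.castSucc)) ∨
      (v (.f j.castSucc) = - v (.f j.succ) ∧ v (.y j) = 0))
    (v' : Row m → ℝ) (h : ∀ e, v ⬝ᵥ col e = 0 → v' ⬝ᵥ col e = 0) : ∃ t : ℝ, v' = t • v := by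
  have hsq : ∀ j, v (.f j) * v (.f j) = 1 := by
    intro j
    rcases hf j with h | h <;> rw [h] <;> norm_num
  have hg' : v' .g = 0 := by
    have := h .g (by rw [flow_g, hg])
    rwa [flow_g] at this
  have hunit : ∀ j : Fin m, v' (.f j.castSucc) * v (.f j.castSucc) = v' (.f j.succ) * v (.f j.succ)
      ∧ v' (.y j) = v' (.f j.castSucc) * v (.f j.castSucc) * v (.y j) := by
    intro j
    rcases hy j with ⟨h1, h2⟩ | ⟨h1, h2⟩
    · have e1 := h (.un j false true) (by rw [flow_ft, h2, sub_self])
      have e2 := h (.un j true false) (by rw [flow_tf, h2, h1, sub_self])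
      rw [flow_ft] at e1
      rw [flow_tf] at e2
      refine ⟨by rw [h1]; linear_combination (v (.f j.succ)) * (e1 - e2), ?_⟩
      rw [h2]
      linear_combination -e1 - v' (.f j.castSucc) * hsq j.castSucc
    · have e1 := h (.un j false false) (by rw [flow_ff, h2])
      have e2 := h (.un j true true) (by rw [flow_tt, h2, h1, hg]; ring)
      rw [flow_ff] at e1
      rw [flow_tt, hg', e1] at e2
      refine ⟨by rw [h1]; linear_combination (v (.f j.succ)) * e2, ?_⟩
      rw [e1, h2, mul_zero]
  have hlev : ∀ j, v' (.f j) * v (.f j) = v' (.f 0) * v (.f 0) := by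
    intro j
    refine Fin.induction rfl (fun i hi => ?_) j
    rw [← hi, (hunit i).1]
  refine ⟨v' (.f 0) * v (.f 0), ?_⟩
  funext r
  rcases r with _ | j | j
  · simp [hg, hg']
  · simp only [Pi.smul_apply, smul_eq_mul]
    rw [← hlev j]
    linear_combination - v' (.f j) * hsq j
  · simp only [Pi.smul_apply, smul_eq_mul]
    rw [← hlev j.castSucc, (hunit j).2]

variable {c : Row m → ℝ}
  (hc : (Matrix.fromCols (mat m) (Matrix.of fun b (_ : Unit) => c b)).IsTotallyUnimodular)

include hc

lemma c_mem (r : Row m) : c r = 0 ∨ c r = 1 ∨ c r = -1 := by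
  obtain ⟨s, hs⟩ := hc.apply r (Sum.inr ())
  have : c r = (s : ℝ) := hs.symm
  rw [this]
  rcases s with _ | _ | _ <;> simp

lemma dot_le (v : Row m → ℝ) (hv : ∃ e, v ⬝ᵥ col e = 1 ∨ v ⬝ᵥ col e = -1)
    (hel : ∀ v' : Row m → ℝ, (∀ e, v ⬝ᵥ col e = 0 → v' ⬝ᵥ col e = 0) → ∃ t : ℝ, v' = t • v) :
    -1 ≤ v ⬝ᵥ c ∧ v ⬝ᵥ c ≤ 1 := by
  obtain ⟨s, hs⟩ := functional_of_tu hc v hv hel
  rw [← hs]
  rcases s with _ | _ | _ <;> simp

lemma bound_c (v : Row m → ℝ) (hg : v .g = 1) (hf : ∀ j, v (.f j) = 0 ∨ v (.f j) = 1)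
    (hy : ∀ j, v (.y j) = 0 ∨ (v (.y j) = 1 ∧ (v (.f j.castSucc) = 1 ∨ v (.f j.succ) = 1)) ∨
      (v (.y j) = -1 ∧ v (.f j.castSucc) = 0 ∧ v (.f j.succ) = 0)) :
    -1 ≤ v ⬝ᵥ c ∧ v ⬝ᵥ c ≤ 1 :=
  dot_le hc v ⟨.g, Or.inl (by rw [flow_g, hg])⟩ (elem_c v hg hf hy)

lemma bound_b (v : Row m → ℝ) (hg : v .g = 0) (hf : ∀ j, v (.f j) = 1 ∨ v (.f j) = -1)
    (hy : ∀ j, (v (.f j.castSucc) = v (.f j.succ) ∧ v (.y j) = v (.f j.castSucc)) ∨
      (v (.f j.castSucc) = - v (.f j.succ) ∧ v (.y j) = 0)) :
    -1 ≤ v ⬝ᵥ c ∧ v ⬝ᵥ c ≤ 1 :=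
  dot_le hc v ⟨.lev 0 false, by rw [flow_lf]; exact hf 0⟩ (elem_b v hg hf hy)

/-- The basic family of inequalities. -/
lemma ineq (j : Fin m) (i3 : Fin (m + 1)) (k : Fin m) (a b d s t : ℝ)
    (ha : a = 0 ∨ a = 1) (hb : b = 0 ∨ b = 1)
    (hd : d = 0 ∨ (d = 1 ∧ i3 ≠ j.castSucc ∧ i3 ≠ j.succ))
    (hs : s = 0 ∨ (s = 1 ∧ (a = 0 ∨ b = 0)) ∨ (s = -1 ∧ a = 1 ∧ b = 1))
    (ht : t = 0 ∨ (t = 1 ∧ k ≠ j ∧ d = 0)) :
    -1 ≤ c .g + ∑ i, c (.f i) - a * c (.f j.castSucc) - b * c (.f j.succ) - d * c (.f i3)
      + s * c (.y j) + t * c (.y k) ∧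
    c .g + ∑ i, c (.f i) - a * c (.f j.castSucc) - b * c (.f j.succ) - d * c (.f i3)
      + s * c (.y j) + t * c (.y k) ≤ 1 := by
  set v : Row m → ℝ := fun r => match r with
    | .g => 1
    | .f i => 1 - (if i = j.castSucc then a else 0) - (if i = j.succ then b else 0)
        - (if i = i3 then d else 0)
    | .y i => (if i = j then s else 0) + (if i = k then t else 0) with hv
  have hcs : j.castSucc ≠ j.succ := by
    intro h
    have := congrArg Fin.val h
    simp at this
  have hdot : v ⬝ᵥ c = c .g + ∑ i, c (.f i) - a * c (.f j.castSucc) - b * c (.f j.succ)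
      - d * c (.f i3) + s * c (.y j) + t * c (.y k) := by
    rw [dotProduct, row_sum]
    simp only [hv, sub_mul, one_mul, add_mul, ite_mul, zero_mul, Finset.sum_sub_distrib,
      Finset.sum_add_distrib, Finset.sum_ite_eq', Finset.mem_univ, if_true]
    ring
  have hvf : ∀ i, v (.f i) = 1 - (if i = j.castSucc then a else 0) - (if i = j.succ then b else 0)
        - (if i = i3 then d else 0) := fun i => rfl
  have hvy : ∀ i, v (.y i) = (if i = j then s else 0) + (if i = k then t else 0) := fun i => rfl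
  rw [← hdot]
  apply bound_c hc v rfl
  · intro i
    rw [hvf]
    by_cases h1 : i = j.castSucc
    · subst h1
      rw [if_pos rfl, if_neg hcs]
      rcases hd with hd | ⟨hd, h3, h4⟩
      · subst hd
        rcases ha with rfl | rfl <;> simp
      · rw [if_neg (Ne.symm h3)]
        rcases ha with rfl | rfl <;> simp
    · rw [if_neg h1]
      by_cases h2 : i = j.succ
      · subst h2
        rw [if_pos rfl]
        rcases hd with hd | ⟨hd, h3, h4⟩
        · subst hd
          rcases hb with rfl | rfl <;> simp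
        · rw [if_neg (Ne.symm h4)]
          rcases hb with rfl | rfl <;> simp
      · rw [if_neg h2]
        by_cases h5 : i = i3
        · rw [if_pos h5]
          rcases hd with hd | ⟨hd, h3, h4⟩
          · subst hd; simp
          · subst hd; simp
        · rw [if_neg h5]; simp
  · intro i
    rw [hvy]
    by_cases h1 : i = j
    · subst h1
      have hk : (if i = k then t else 0) = 0 := by
        rcases ht with ht | ⟨-, hk, -⟩
        · rw [ht]; simp
        · rw [if_neg (Ne.symm hk)]
      rw [hk, if_pos rfl, add_zero, hvf, hvf, if_pos rfl, if_neg hcs, if_neg (Ne.symm hcs),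
        if_pos rfl]
      have h3 : (if i.castSucc = i3 then d else 0) = 0 := by
        rcases hd with hd | ⟨hd, h3, h4⟩
        · rw [hd]; simp
        · rw [if_neg (Ne.symm h3)]
      have h4 : (if i.succ = i3 then d else 0) = 0 := by
        rcases hd with hd | ⟨hd, h3, h4⟩
        · rw [hd]; simp
        · rw [if_neg (Ne.symm h4)]
      rw [h3, h4]
      rcases hs with hs | ⟨hs, h5 | h5⟩ | ⟨hs, h5, h6⟩
      · left; exact hs
      · right; left; refine ⟨hs, Or.inl ?_⟩; rw [h5]; ring
      · right; left; refine ⟨hs, Or.inr ?_⟩; rw [h5]; ring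
      · right; right; refine ⟨hs, ?_, ?_⟩
        · rw [h5]; ring
        · rw [h6]; ring
    · rw [if_neg h1, zero_add]
      by_cases h2 : i = k
      · subst h2
        rw [if_pos rfl]
        rcases ht with ht | ⟨ht, hk, hd0⟩
        · left; exact ht
        · right; left
          refine ⟨ht, ?_⟩
          rw [hvf, hvf, hd0]
          rcases lt_or_gt_of_ne hk with hlt | hgt
          · left
            rw [if_neg, if_neg]
            · simp
            · intro h; have := congrArg Fin.val h; simp at this; omega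
            · intro h; have := congrArg Fin.val h; simp at this; omega
          · right
            rw [if_neg, if_neg]
            · simp
            · intro h; have := congrArg Fin.val h; simp at this; omega
            · intro h; have := congrArg Fin.val h; simp at this; omega
      · left; rw [if_neg h2]

/-- At most one `y`-coordinate of `c` is nonzero. -/
lemma y_unique {j k : Fin m} (hjk : k ≠ j) (hj : c (.y j) ≠ 0) : c (.y k) = 0 := by
  by_contra hk
  have I := fun a b s t ha hb hs ht => ineq hc j 0 k a b 0 s t ha hb (Or.inl rfl) hs ht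
  have hj' : c (.y j) = 1 ∨ c (.y j) = -1 := (c_mem hc (.y j)).resolve_left hj
  have hk' : c (.y k) = 1 ∨ c (.y k) = -1 := (c_mem hc (.y k)).resolve_left hk
  have T0 : (0 : ℝ) = 0 ∨ ((0 : ℝ) = 1 ∧ k ≠ j ∧ (0 : ℝ) = 0) := Or.inl rfl
  have T1 : (1 : ℝ) = 0 ∨ ((1 : ℝ) = 1 ∧ k ≠ j ∧ (0 : ℝ) = 0) := Or.inr ⟨rfl, hjk, rfl⟩
  have z : (0 : ℝ) = 0 ∨ (0 : ℝ) = 1 := Or.inl rfl
  have o : (1 : ℝ) = 0 ∨ (1 : ℝ) = 1 := Or.inr rfl
  obtain ⟨l1, u1⟩ := I 0 0 0 0 z z (by simp) T0
  obtain ⟨l2, u2⟩ := I 0 0 1 0 z z (by simp) T0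
  obtain ⟨l3, u3⟩ := I 0 0 0 1 z z (by simp) T1
  obtain ⟨l4, u4⟩ := I 0 0 1 1 z z (by simp) T1
  obtain ⟨l5, u5⟩ := I 1 0 0 0 o z (by simp) T0
  obtain ⟨l6, u6⟩ := I 1 0 1 0 o z (by simp) T0
  obtain ⟨l7, u7⟩ := I 1 0 0 1 o z (by simp) T1
  obtain ⟨l8, u8⟩ := I 1 0 1 1 o z (by simp) T1
  obtain ⟨l9, u9⟩ := I 0 1 0 0 z o (by simp) T0
  obtain ⟨l10, u10⟩ := I 0 1 1 0 z o (by simp) T0
  obtain ⟨l11, u11⟩ := I 0 1 0 1 z o (by simp) T1
  obtain ⟨l12, u12⟩ := I 0 1 1 1 z o (by simp) T1
  obtain ⟨l13, u13⟩ := I 1 1 0 0 o o (by simp) T0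
  obtain ⟨l14, u14⟩ := I 1 1 (-1) 0 o o (by simp) T0
  obtain ⟨l15, u15⟩ := I 1 1 0 1 o o (by simp) T1
  obtain ⟨l16, u16⟩ := I 1 1 (-1) 1 o o (by simp) T1
  clear I T0 T1 z o
  rcases hj' with hj' | hj' <;> rcases hk' with hk' | hk' <;> simp only [hj', hk'] at * <;> linarith

/-- If `c (.y j) ≠ 0`, then `c (.f i)` vanishes except for the two levels next to the unit `j`. -/
lemma f_zero {j : Fin m} {i : Fin (m + 1)} (h1 : i ≠ j.castSucc) (h2 : i ≠ j.succ)
    (hj : c (.y j) ≠ 0) : c (.f i) = 0 := by
  by_contra hk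
  have I := fun a b d s ha hb hd hs => ineq hc j i j a b d s 0 ha hb hd hs (Or.inl rfl)
  have hj' : c (.y j) = 1 ∨ c (.y j) = -1 := (c_mem hc (.y j)).resolve_left hj
  have hk' : c (.f i) = 1 ∨ c (.f i) = -1 := (c_mem hc (.f i)).resolve_left hk
  have T0 : (0 : ℝ) = 0 ∨ ((0 : ℝ) = 1 ∧ i ≠ j.castSucc ∧ i ≠ j.succ) := Or.inl rfl
  have T1 : (1 : ℝ) = 0 ∨ ((1 : ℝ) = 1 ∧ i ≠ j.castSucc ∧ i ≠ j.succ) := Or.inr ⟨rfl, h1, h2⟩
  have z : (0 : ℝ) = 0 ∨ (0 : ℝ) = 1 := Or.inl rfl
  have o : (1 : ℝ) = 0 ∨ (1 : ℝ) = 1 := Or.inr rfl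
  obtain ⟨l1, u1⟩ := I 0 0 0 0 z z T0 (by simp)
  obtain ⟨l2, u2⟩ := I 0 0 0 1 z z T0 (by simp)
  obtain ⟨l3, u3⟩ := I 0 0 1 0 z z T1 (by simp)
  obtain ⟨l4, u4⟩ := I 0 0 1 1 z z T1 (by simp)
  obtain ⟨l5, u5⟩ := I 1 0 0 0 o z T0 (by simp)
  obtain ⟨l6, u6⟩ := I 1 0 0 1 o z T0 (by simp)
  obtain ⟨l7, u7⟩ := I 1 0 1 0 o z T1 (by simp)
  obtain ⟨l8, u8⟩ := I 1 0 1 1 o z T1 (by simp)
  obtain ⟨l9, u9⟩ := I 0 1 0 0 z o T0 (by simp)
  obtain ⟨l10, u10⟩ := I 0 1 0 1 z o T0 (by simp)
  obtain ⟨l11, u11⟩ := I 0 1 1 0 z o T1 (by simp)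
  obtain ⟨l12, u12⟩ := I 0 1 1 1 z o T1 (by simp)
  obtain ⟨l13, u13⟩ := I 1 1 0 0 o o T0 (by simp)
  obtain ⟨l14, u14⟩ := I 1 1 0 (-1) o o T0 (by simp)
  obtain ⟨l15, u15⟩ := I 1 1 1 0 o o T1 (by simp)
  obtain ⟨l16, u16⟩ := I 1 1 1 (-1) o o T1 (by simp)
  clear I T0 T1 z o
  rcases hj' with hj' | hj' <;> rcases hk' with hk' | hk' <;> simp only [hj', hk'] at * <;> linarith

/-- **Completeness.** A column extending `mat m` to a totally unimodular matrix is a multiple of a
column of `mat m`. -/
lemma complete_mat : ∃ (e : Edge m) (t : ℝ), c = t • col e := by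
  by_cases hy : ∃ j, c (.y j) ≠ 0
  · obtain ⟨j, hj⟩ := hy
    have hcs : j.castSucc ≠ j.succ := by
      intro h
      have := congrArg Fin.val h
      simp at this
    have hfun : c = c .g • (Pi.single .g 1 : Row m → ℝ) +
        c (.f j.castSucc) • (Pi.single (.f j.castSucc) 1 : Row m → ℝ) +
        c (.f j.succ) • (Pi.single (.f j.succ) 1 : Row m → ℝ) +
        c (.y j) • (Pi.single (.y j) 1 : Row m → ℝ) := by
      funext r
      rcases r with _ | i | i
      · simp
      · by_cases h1 : i = j.castSucc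
        · subst h1
          simp [hcs]
        · by_cases h2 : i = j.succ
          · subst h2
            simp [Ne.symm hcs]
          · simp [h1, h2, f_zero hc h1 h2 hj]
      · by_cases h1 : i = j
        · subst h1
          simp
        · simp [h1, y_unique hc h1 hj]
    have hsum : ∑ i, c (.f i) = c (.f j.castSucc) + c (.f j.succ) :=
      Fintype.sum_eq_add _ _ hcs (fun i hi => f_zero hc hi.1 hi.2 hj)
    have I := fun a b s ha hb hs => ineq hc j 0 j a b 0 s 0 ha hb (Or.inl rfl) hs (Or.inl rfl)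
    have z : (0 : ℝ) = 0 ∨ (0 : ℝ) = 1 := Or.inl rfl
    have o : (1 : ℝ) = 0 ∨ (1 : ℝ) = 1 := Or.inr rfl
    obtain ⟨l1, u1⟩ := I 0 0 0 z z (by simp)
    obtain ⟨l2, u2⟩ := I 0 0 1 z z (by simp)
    obtain ⟨l3, u3⟩ := I 1 0 0 o z (by simp)
    obtain ⟨l4, u4⟩ := I 1 0 1 o z (by simp)
    obtain ⟨l5, u5⟩ := I 0 1 0 z o (by simp)
    obtain ⟨l6, u6⟩ := I 0 1 1 z o (by simp)
    obtain ⟨l7, u7⟩ := I 1 1 0 o o (by simp)
    obtain ⟨l8, u8⟩ := I 1 1 (-1) o o (by simp)
    rw [hsum] at l1 u1 l2 u2 l3 u3 l4 u4 l5 u5 l6 u6 l7 u7 l8 u8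
    clear I z o hsum
    have hj' : c (.y j) = 1 ∨ c (.y j) = -1 := (c_mem hc (.y j)).resolve_left hj
    rcases c_mem hc .g with hγ | hγ | hγ <;> rcases c_mem hc (.f j.castSucc) with hp | hp | hp <;>
      rcases c_mem hc (.f j.succ) with hq | hq | hq <;> rcases hj' with hy | hy <;>
      rw [hγ, hp, hq, hy] at hfun l1 u1 l2 u2 l3 u3 l4 u4 l5 u5 l6 u6 l7 u7 l8 u8 <;>
      first
      | (exfalso; linarith)
      | (refine ⟨.un j false false, 1, ?_⟩; rw [hfun]; simp only [col]; module)
      | (refine ⟨.un j false false, -1, ?_⟩; rw [hfun]; simp only [col]; module)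
      | (refine ⟨.un j false true, 1, ?_⟩; rw [hfun]; simp only [col]; module)
      | (refine ⟨.un j false true, -1, ?_⟩; rw [hfun]; simp only [col]; module)
      | (refine ⟨.un j true false, 1, ?_⟩; rw [hfun]; simp only [col]; module)
      | (refine ⟨.un j true false, -1, ?_⟩; rw [hfun]; simp only [col]; module)
      | (refine ⟨.un j true true, 1, ?_⟩; rw [hfun]; simp only [col]; module)
      | (refine ⟨.un j true true, -1, ?_⟩; rw [hfun]; simp only [col]; module)
  · push Not at hy
    set σ : Fin (m + 1) → ℝ := fun i => if c (.f i) = -1 then -1 else 1 with hσ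
    have hσv : ∀ i, σ i = 1 ∨ σ i = -1 := by
      intro i
      simp only [hσ]
      split_ifs <;> simp
    have habs : ∀ i, σ i * c (.f i) = |c (.f i)| := by
      intro i
      simp only [hσ]
      rcases c_mem hc (.f i) with h | h | h <;> rw [h] <;> norm_num
    set v : Row m → ℝ := fun r => match r with
      | .g => 0
      | .f i => σ i
      | .y i => if σ i.castSucc = σ i.succ then σ i.castSucc else 0 with hv
    have hdot : v ⬝ᵥ c = ∑ i, |c (.f i)| := by
      rw [dotProduct, row_sum]
      simp only [hv, zero_mul, zero_add, hy, mul_zero, Finset.sum_const_zero, add_zero, habs]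
    have hle : ∑ i, |c (.f i)| ≤ 1 := by
      rw [← hdot]
      refine (bound_b hc v rfl hσv ?_).2
      intro i
      have e1 : v (.f i.castSucc) = σ i.castSucc := rfl
      have e2 : v (.f i.succ) = σ i.succ := rfl
      have e3 : v (.y i) = if σ i.castSucc = σ i.succ then σ i.castSucc else 0 := rfl
      rw [e1, e2, e3]
      by_cases h : σ i.castSucc = σ i.succ
      · left
        exact ⟨h, if_pos h⟩
      · right
        refine ⟨?_, if_neg h⟩
        rcases hσv i.castSucc with h1 | h1 <;> rcases hσv i.succ with h2 | h2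
        · exact absurd (h1.trans h2.symm) h
        · rw [h1, h2]; norm_num
        · rw [h1, h2]
        · exact absurd (h1.trans h2.symm) h
    by_cases hf : ∃ i, c (.f i) ≠ 0
    · obtain ⟨i, hi⟩ := hf
      have hi' : c (.f i) = 1 ∨ c (.f i) = -1 := (c_mem hc (.f i)).resolve_left hi
      have hz : ∀ k, k ≠ i → c (.f k) = 0 := by
        intro k hk
        by_contra hk0
        have hk' : c (.f k) = 1 ∨ c (.f k) = -1 := (c_mem hc (.f k)).resolve_left hk0
        have h1 : ∑ l ∈ ({i, k} : Finset (Fin (m + 1))), |c (.f l)| ≤ ∑ l, |c (.f l)| :=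
          Finset.sum_le_sum_of_subset_of_nonneg (Finset.subset_univ _) (fun l _ _ => abs_nonneg _)
        rw [Finset.sum_pair (Ne.symm hk)] at h1
        rcases hi' with h2 | h2 <;> rcases hk' with h3 | h3 <;> rw [h2, h3] at h1 <;>
          norm_num at h1 <;> linarith
      have hfun : c = c .g • (Pi.single .g 1 : Row m → ℝ) +
          c (.f i) • (Pi.single (.f i) 1 : Row m → ℝ) := by
        funext r
        rcases r with _ | k | k
        · simp
        · by_cases h1 : k = i
          · subst h1
            simp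
          · simp [h1, hz k h1]
        · simp [hy k]
      have hb := bound_c hc (fun r => match r with
        | .g => 1
        | .f _ => 1
        | .y _ => 0) rfl (fun _ => Or.inr rfl) (fun _ => Or.inl rfl)
      have hd : (fun r => match r with
        | .g => 1
        | .f _ => 1
        | .y _ => 0 : Row m → ℝ) ⬝ᵥ c = c .g + c (.f i) := by
        rw [dotProduct, row_sum]
        simp only [one_mul, zero_mul, Finset.sum_const_zero, add_zero]
        rw [Finset.sum_eq_single i (fun k _ hk => hz k hk) (by simp)]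
      rw [hd] at hb
      obtain ⟨l1, u1⟩ := hb
      rcases c_mem hc .g with hγ | hγ | hγ <;> rcases hi' with hp | hp <;>
        rw [hγ, hp] at hfun l1 u1 <;>
        first
        | (exfalso; linarith)
        | (refine ⟨.lev i false, 1, ?_⟩; rw [hfun]; simp only [col]; module)
        | (refine ⟨.lev i false, -1, ?_⟩; rw [hfun]; simp only [col]; module)
        | (refine ⟨.lev i true, 1, ?_⟩; rw [hfun]; simp only [col]; module)
        | (refine ⟨.lev i true, -1, ?_⟩; rw [hfun]; simp only [col]; module)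
    · push Not at hf
      refine ⟨.g, c .g, ?_⟩
      funext r
      rcases r with _ | k | k
      · simp [col]
      · simp [col, hf k]
      · simp [col, hy k]

end complete

section facet

variable {ε : Type} [Fintype ε]

lemma sum_indicator_chi (B F : Set ε) : ∑ e, F.indicator (chi B) e = ((B ∩ F).ncard : ℝ) := by
  classical
  have h : ∀ e, F.indicator (chi B) e = if e ∈ B ∩ F then (1 : ℝ) else 0 := by
    intro e
    by_cases h1 : e ∈ F <;> by_cases h2 : e ∈ B <;> simp [chi, h1, h2]
  simp_rw [h]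
  rw [Finset.sum_boole, ncard_eq_toFinset_card']
  congr 2
  ext e
  simp

lemma chi_mem_tightFace {M : Matroid ε} {F B : Set ε} (hB : M.IsBase B)
    (h : (B ∩ F).ncard = rk M F) : chi B ∈ tightFace M F :=
  ⟨subset_convexHull ℝ _ ⟨B, hB, rfl⟩, by rw [sum_indicator_chi, h]⟩

/-- The functional `x ↦ x(F)`. -/
noncomputable def sumOn (F : Set ε) : (ε → ℝ) →ₗ[ℝ] ℝ where
  toFun x := ∑ e, F.indicator x e
  map_add' x y := by
    rw [← Finset.sum_add_distrib]
    exact Finset.sum_congr rfl fun e _ => congrFun (indicator_add F x y) e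
  map_smul' c x := by
    rw [RingHom.id_apply, smul_eq_mul, Finset.mul_sum]
    exact Finset.sum_congr rfl fun e _ => congrFun (indicator_const_smul F c x) e

lemma sumOn_apply (F : Set ε) (x : ε → ℝ) : sumOn F x = ∑ e, F.indicator x e := rfl

lemma sumOn_single [DecidableEq ε] (F : Set ε) (e : ε) (he : e ∈ F) :
    sumOn F (Pi.single e 1) = 1 := by
  rw [sumOn_apply, Finset.sum_eq_single e]
  · simp [he]
  · intro b _ hb
    by_cases h : b ∈ F <;> simp [h, hb]
  · simp

lemma sumOn_single' [DecidableEq ε] (F : Set ε) (e : ε) (he : e ∉ F) :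
    sumOn F (Pi.single e 1) = 0 := by
  rw [sumOn_apply]
  apply Finset.sum_eq_zero
  intro b _
  by_cases h : b ∈ F
  · have : b ≠ e := by rintro rfl; exact he h
    simp [this]
  · simp [h]

/-- All points of the base polytope satisfy `x(E) = r`. -/
lemma sum_of_mem_basePolytope {M : Matroid ε} {r : ℕ} (hr : ∀ B, M.IsBase B → B.ncard = r)
    {x : ε → ℝ} (hx : x ∈ basePolytope M) : sumOn univ x = r := by
  have hsub : basePolytope M ⊆ {y | sumOn univ y = r} := by
    apply convexHull_min
    · rintro _ ⟨B, hB, rfl⟩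
      rw [mem_ofPred_eq, sumOn_apply, sum_indicator_chi, inter_univ, hr B hB]
    · exact convex_hyperplane (IsLinearMap.mk (map_add _) (fun c x => map_smul _ c x)) _
  exact hsub hx

/-- Criterion for the face of `F` to have codimension one. -/
lemma facet_criterion [DecidableEq ε] {M : Matroid ε} {F : Set ε} {r : ℕ}
    (hr : ∀ B, M.IsBase B → B.ncard = r)
    (h1 : ∀ e ∈ F, ∀ e' ∈ F,
      (Pi.single e 1 - Pi.single e' 1 : ε → ℝ) ∈ vectorSpan ℝ (tightFace M F))
    (h2 : ∀ e ∉ F, ∀ e' ∉ F,
      (Pi.single e 1 - Pi.single e' 1 : ε → ℝ) ∈ vectorSpan ℝ (tightFace M F))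
    (h3 : ∃ e ∈ F, ∃ e' ∉ F,
      (Pi.single e 1 - Pi.single e' 1 : ε → ℝ) ∈ vectorSpan ℝ (basePolytope M)) :
    dim (tightFace M F) + 1 = dim (basePolytope M) := by
  classical
  obtain ⟨e0, he0, e1, he1, hw⟩ := h3
  set w : ε → ℝ := Pi.single e0 1 - Pi.single e1 1 with hwdef
  set S1 := vectorSpan ℝ (basePolytope M) with hS1
  set S2 := vectorSpan ℝ (tightFace M F) with hS2
  have hσw : sumOn F w = 1 := by
    rw [hwdef, map_sub, sumOn_single F e0 he0, sumOn_single' F e1 he1, sub_zero]
  have hS2F : S2 ≤ LinearMap.ker (sumOn F) := by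
    rw [hS2, vectorSpan_def, Submodule.span_le]
    rintro _ ⟨x, hx, y, hy, rfl⟩
    have hx2 : sumOn F x = rk M F := hx.2
    have hy2 : sumOn F y = rk M F := hy.2
    simp only [vsub_eq_sub, SetLike.mem_coe, LinearMap.mem_ker, map_sub, hx2, hy2, sub_self]
  have hS1E : S1 ≤ LinearMap.ker (sumOn (univ : Set ε)) := by
    rw [hS1, vectorSpan_def, Submodule.span_le]
    rintro _ ⟨x, hx, y, hy, rfl⟩
    simp only [vsub_eq_sub, SetLike.mem_coe, LinearMap.mem_ker, map_sub,
      sum_of_mem_basePolytope hr hx, sum_of_mem_basePolytope hr hy, sub_self]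
  have hS21 : S2 ≤ S1 := vectorSpan_mono ℝ (fun x hx => hx.1)
  have hD2 : ∀ v : ε → ℝ, sumOn univ v = 0 → sumOn F v = 0 → v ∈ S2 := by
    intro v hv1 hv2
    have hv3 : sumOn Fᶜ v = 0 := by
      have : sumOn univ v = sumOn F v + sumOn Fᶜ v := by
        rw [sumOn_apply, sumOn_apply, sumOn_apply, ← Finset.sum_add_distrib]
        apply Finset.sum_congr rfl
        intro e _
        by_cases h : e ∈ F <;> simp [h]
      linarith
    have key : v = ∑ e, v e • (Pi.single e 1 - Pi.single (if e ∈ F then e0 else e1) 1 : ε → ℝ) := by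
      have e1' : ∑ e, v e • (Pi.single (if e ∈ F then e0 else e1) 1 : ε → ℝ) =
          sumOn F v • (Pi.single e0 1 : ε → ℝ) + sumOn Fᶜ v • (Pi.single e1 1 : ε → ℝ) := by
        rw [sumOn_apply, sumOn_apply, Finset.sum_smul, Finset.sum_smul, ← Finset.sum_add_distrib]
        apply Finset.sum_congr rfl
        intro e _
        by_cases h : e ∈ F <;> simp [h]
      have e2' : ∑ e, v e • (Pi.single e 1 : ε → ℝ) = v := by
        ext i
        simp [Finset.sum_apply, Pi.single_apply]
      simp_rw [smul_sub]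
      rw [Finset.sum_sub_distrib, e1', e2', hv2, hv3]
      simp
    rw [key]
    apply Submodule.sum_mem
    intro e _
    apply Submodule.smul_mem
    by_cases h : e ∈ F
    · rw [if_pos h]
      exact h1 e h e0 he0
    · rw [if_neg h]
      exact h2 e h e1 he1
  have hsup : S2 ⊔ Submodule.span ℝ {w} = S1 := by
    apply le_antisymm
    · apply sup_le hS21
      rw [Submodule.span_le, singleton_subset_iff]
      exact hw
    · intro v hv
      have hv1 : sumOn univ v = 0 := hS1E hv
      have hw1 : sumOn univ w = 0 := hS1E hw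
      have : v - (sumOn F v) • w ∈ S2 := by
        apply hD2
        · rw [map_sub, map_smul, hv1, hw1]
          simp
        · rw [map_sub, map_smul, hσw]
          simp
      rw [Submodule.mem_sup]
      refine ⟨_, this, (sumOn F v) • w, ?_, by abel⟩
      exact Submodule.smul_mem _ _ (Submodule.mem_span_singleton_self w)
  have hinf : S2 ⊓ Submodule.span ℝ {w} = ⊥ := by
    rw [eq_bot_iff]
    rintro v ⟨hv1, hv2⟩
    rw [SetLike.mem_coe, Submodule.mem_span_singleton] at hv2
    obtain ⟨c, rfl⟩ := hv2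
    have := hS2F hv1
    rw [LinearMap.mem_ker, map_smul, hσw] at this
    simp only [smul_eq_mul, mul_one] at this
    rw [this, zero_smul]
    exact Submodule.zero_mem _
  have hw0 : w ≠ 0 := by
    intro h
    rw [h, map_zero] at hσw
    norm_num at hσw
  have hfin := Submodule.finrank_sup_add_finrank_inf_eq S2 (Submodule.span ℝ {w})
  rw [hsup, hinf, finrank_bot, finrank_span_singleton hw0] at hfin
  change Module.finrank ℝ S2 + 1 = Module.finrank ℝ S1
  omega

/-- If both `B` and `insert e (B \ {b})` are bases in the face of `F`, the difference of the unit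
vectors is a direction of the face. -/
lemma exchange_mem [DecidableEq ε] {M : Matroid ε} {F B : Set ε} {b e : ε} (hb : b ∈ B)
    (he : e ∉ B) (h1 : chi B ∈ tightFace M F) (h2 : chi (insert e (B \ {b})) ∈ tightFace M F) :
    (Pi.single b 1 - Pi.single e 1 : ε → ℝ) ∈ vectorSpan ℝ (tightFace M F) := by
  have h := vsub_mem_vectorSpan ℝ h1 h2
  convert h using 1
  ext i
  have hbe : b ≠ e := by rintro rfl; exact he hb
  by_cases h3 : i = b
  · subst h3
    simp [chi, hb, hbe]
  · by_cases h4 : i = e
    · subst h4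
      simp [chi, he, h3]
    · by_cases h5 : i ∈ B <;> simp [chi, h3, h4, h5]

lemma exchange_mem' [DecidableEq ε] {M : Matroid ε} {B : Set ε} {b e : ε} (hb : b ∈ B)
    (he : e ∉ B) (h1 : M.IsBase B) (h2 : M.IsBase (insert e (B \ {b}))) :
    (Pi.single b 1 - Pi.single e 1 : ε → ℝ) ∈ vectorSpan ℝ (basePolytope M) := by
  have h := vsub_mem_vectorSpan ℝ (s := basePolytope M)
    (subset_convexHull ℝ _ ⟨B, h1, rfl⟩) (subset_convexHull ℝ _ ⟨_, h2, rfl⟩)
  convert h using 1
  ext i
  have hbe : b ≠ e := by rintro rfl; exact he hb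
  by_cases h3 : i = b
  · subst h3
    simp [chi, hb, hbe]
  · by_cases h4 : i = e
    · subst h4
      simp [chi, he, h3]
    · by_cases h5 : i ∈ B <;> simp [chi, h3, h4, h5]

end facet


section final

variable {m : ℕ}

/-! ### The matroid -/

/-- The matroid represented by `mat m`. -/
noncomputable def MM (m : ℕ) : Matroid (Edge m) := vecMatroid (col : Edge m → Row m → ℝ)

lemma span_col : Submodule.span ℝ (range (col : Edge m → Row m → ℝ)) = ⊤ := by
  rw [eq_top_iff]
  intro w _
  rw [← Finset.univ_sum_single w]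
  apply Submodule.sum_mem
  intro b _
  have : (Pi.single b (w b) : Row m → ℝ) = w b • col (io b) := by
    rw [col_io, ← Pi.single_smul']
    simp
  rw [this]
  exact Submodule.smul_mem _ _ (Submodule.subset_span ⟨_, rfl⟩)

/-- The symmetry of the set of edges switching the tracks at the levels `j` with `x j`. -/
def tau (x : Fin (m + 1) → Bool) : Edge m → Edge m
  | .g => .g
  | .lev j b => .lev j (xor b (x j))
  | .un j b b' => .un j (xor b (x j.castSucc)) (xor b' (x j.succ))

lemma tau_tau (x : Fin (m + 1) → Bool) (e : Edge m) : tau x (tau x e) = e := by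
  rcases e with _ | ⟨j, b⟩ | ⟨j, b, b'⟩ <;> simp [tau]

lemma tau_injective (x : Fin (m + 1) → Bool) : Function.Injective (tau (m := m) x) :=
  Function.LeftInverse.injective (tau_tau x)

/-- The linear symmetry inducing `tau x`. -/
noncomputable def LL (x : Fin (m + 1) → Bool) : (Row m → ℝ) →ₗ[ℝ] (Row m → ℝ) :=
  (Pi.basisFun ℝ (Row m)).constr ℝ (fun b => col (tau x (io b)))

lemma LL_single (x : Fin (m + 1) → Bool) (b : Row m) :
    LL x (Pi.single b 1) = col (tau x (io b)) := by
  have := (Pi.basisFun ℝ (Row m)).constr_basis ℝ (fun b => col (tau x (io b))) b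
  simpa [LL] using this

lemma LL_col (x : Fin (m + 1) → Bool) (e : Edge m) : LL x (col e) = col (tau x e) := by
  rcases e with _ | ⟨j, _ | _⟩ | ⟨j, _ | _, _ | _⟩
  · exact LL_single x .g
  · exact LL_single x (.f j)
  · rw [col, map_sub, LL_single, LL_single]
    simp only [io, tau]
    cases x j <;> simp [col]
  · exact LL_single x (.y j)
  · rw [col, map_sub, LL_single, LL_single]
    simp only [io, tau]
    cases x j.castSucc <;> cases x j.succ <;> simp [col] <;> module
  · rw [col, map_sub, LL_single, LL_single]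
    simp only [io, tau]
    cases x j.castSucc <;> cases x j.succ <;> simp [col] <;> module
  · rw [col, map_add, map_sub, map_sub, LL_single, LL_single, LL_single, LL_single]
    simp only [io, tau]
    cases x j.castSucc <;> cases x j.succ <;> simp [col] <;> module

lemma LL_LL (x : Fin (m + 1) → Bool) : (LL x).comp (LL x) = LinearMap.id := by
  apply (Pi.basisFun ℝ (Row m)).ext
  intro b
  simp only [Pi.basisFun_apply, LinearMap.comp_apply, LL_single, LL_col, tau_tau,
    LinearMap.id_apply]
  rw [col_io]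

lemma LL_injective (x : Fin (m + 1) → Bool) : Function.Injective (LL (m := m) x) := by
  apply Function.LeftInverse.injective (g := LL x)
  intro w
  exact LinearMap.congr_fun (LL_LL x) w

lemma finrank_row : Module.finrank ℝ (Row m → ℝ) = 2 * m + 2 := by
  rw [Module.finrank_fintype_fun_eq_card, card_row]

lemma base_ncard {B : Set (Edge m)} (hB : (MM m).IsBase B) : B.ncard = 2 * m + 2 := by
  rw [← finrank_row (m := m)]
  exact ncard_of_isBase span_col hB

/-- A linearly independent set of the right size is a base. -/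
lemma isBase_of_ncard {B : Set (Edge m)} (h : LinearIndepOn ℝ (col : Edge m → Row m → ℝ) B)
    (hn : B.ncard = 2 * m + 2) : (MM m).IsBase B := by
  rw [MM, isBase_iff span_col]
  refine ⟨h, ?_⟩
  apply Submodule.eq_top_of_finrank_eq
  rw [finrank_span_image h, hn, finrank_row]

/-- The symmetries preserve bases. -/
lemma isBase_tau (x : Fin (m + 1) → Bool) {B : Set (Edge m)} (hB : (MM m).IsBase B) :
    (MM m).IsBase (tau x '' B) := by
  apply isBase_of_ncard
  · have h1 : LinearIndepOn ℝ (col : Edge m → Row m → ℝ) B := hB.indep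
    have h2 : LinearIndepOn ℝ (fun e => LL x (col e)) B :=
      h1.map_injOn (LL x) (LL_injective x).injOn
    have h3 : LinearIndepOn ℝ ((col : Edge m → Row m → ℝ) ∘ tau x) B := by
      refine h2.congr ?_
      intro e _
      exact LL_col x e
    exact h3.image_of_comp (tau x) col
  · rw [ncard_image_of_injective _ (tau_injective x), base_ncard hB]

/-- The standard base. -/
def SB (m : ℕ) : Set (Edge m) := range io

lemma io_injective : Function.Injective (io (m := m)) := by
  intro a b h
  cases a <;> cases b <;> simp [io] at h ⊢ <;> assumption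

lemma SB_isBase : (MM m).IsBase (SB m) := by
  apply isBase_of_ncard
  · rw [SB, LinearIndepOn]
    have h := (Pi.basisFun ℝ (Row m)).linearIndependent
    have h2 : LinearIndepOn ℝ (col : Edge m → Row m → ℝ) (io '' univ) := by
      apply LinearIndepOn.image_of_comp
      rw [linearIndepOn_univ]
      convert h using 1
      funext b
      simp [col_io]
    rw [image_univ] at h2
    exact h2
  · rw [SB, ← image_univ, ncard_image_of_injective _ io_injective, ncard_univ,
      Nat.card_eq_fintype_card, card_row]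

/-- Exchange with the standard base. -/
lemma SB_exchange {b : Row m} {e : Edge m} (he : e ∉ SB m) (hb : col e b ≠ 0) :
    (MM m).IsBase (insert e (SB m \ {io b})) := by
  have hbm : io b ∈ SB m := ⟨b, rfl⟩
  have hi : LinearIndepOn ℝ (col : Edge m → Row m → ℝ) (SB m \ {io b}) :=
    (show LinearIndepOn ℝ (col : Edge m → Row m → ℝ) (SB m) from SB_isBase.indep).mono
      sdiff_subset
  have hns : col e ∉ Submodule.span ℝ (col '' (SB m \ {io b})) := by
    intro h
    have hle : Submodule.span ℝ (col '' (SB m \ {io b})) ≤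
        LinearMap.ker (LinearMap.proj b : (Row m → ℝ) →ₗ[ℝ] ℝ) := by
      rw [Submodule.span_le]
      rintro _ ⟨_, ⟨⟨b', rfl⟩, hne⟩, rfl⟩
      rw [SetLike.mem_coe, LinearMap.mem_ker, LinearMap.proj_apply, col_io]
      have : b' ≠ b := by
        rintro rfl
        exact hne rfl
      rw [Pi.single_eq_of_ne (Ne.symm this)]
    exact hb (hle h)
  apply isBase_of_ncard (hi.insert hns)
  rw [ncard_insert_of_notMem (fun h => he h.1), ncard_sdiff_singleton_of_mem hbm,
    base_ncard SB_isBase]
  omega

/-! ### The flacets -/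

/-- The standard hyperplane: the elements whose column has zero `g`-entry. -/
def F0 (m : ℕ) : Set (Edge m) := {e | col e .g = 0}

/-- The hyperplane `F_x`. -/
def FF (x : Fin (m + 1) → Bool) : Set (Edge m) := {e | col (tau x e) .g = 0}

lemma mem_FF (x : Fin (m + 1) → Bool) (e : Edge m) : e ∈ FF x ↔ tau x e ∈ F0 m := Iff.rfl

lemma tau_mem_FF (x : Fin (m + 1) → Bool) (e : Edge m) : tau x e ∈ FF x ↔ e ∈ F0 m := by
  rw [mem_FF, tau_tau]

/-- The functional with kernel spanned by the columns in `F_x`. -/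
noncomputable def th (x : Fin (m + 1) → Bool) : (Row m → ℝ) →ₗ[ℝ] ℝ :=
  (LinearMap.proj Row.g).comp (LL x)

lemma th_apply (x : Fin (m + 1) → Bool) (w : Row m → ℝ) : th x w = (LL x w) .g := rfl

lemma FF_isFlat (x : Fin (m + 1) → Bool) : (MM m).IsFlat (FF x) := by
  have hset : FF x = {e | th x (col e) = 0} := by
    ext e
    change col (tau x e) .g = 0 ↔ (LL x (col e)) .g = 0
    rw [LL_col]
  rw [hset]
  exact isFlat_ker (col : Edge m → Row m → ℝ) (th x)

lemma io_mem_F0 (b : Row m) : io b ∈ F0 m ↔ b ≠ .g := by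
  change col (io b) .g = 0 ↔ _
  rw [col_io]
  cases b <;> simp

lemma SB_inter_F0 : (SB m ∩ F0 m).ncard = 2 * m + 1 := by
  have h : SB m ∩ F0 m = SB m \ {io .g} := by
    ext e
    constructor
    · rintro ⟨⟨b, rfl⟩, h⟩
      refine ⟨⟨b, rfl⟩, fun h2 => ?_⟩
      rw [io_mem_F0] at h
      exact h (io_injective h2)
    · rintro ⟨⟨b, rfl⟩, h⟩
      refine ⟨⟨b, rfl⟩, ?_⟩
      rw [io_mem_F0]
      rintro rfl
      exact h rfl
  rw [h, ncard_sdiff_singleton_of_mem (show io .g ∈ SB m from ⟨.g, rfl⟩), base_ncard SB_isBase]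
  omega

lemma tau_inter (x : Fin (m + 1) → Bool) (B : Set (Edge m)) :
    (tau x '' B ∩ FF x).ncard = (B ∩ F0 m).ncard := by
  have h : tau x '' B ∩ FF x = tau x '' (B ∩ F0 m) := by
    ext e
    constructor
    · rintro ⟨⟨b, hb, rfl⟩, h⟩
      rw [tau_mem_FF] at h
      exact ⟨b, ⟨hb, h⟩, rfl⟩
    · rintro ⟨b, ⟨hb, h⟩, rfl⟩
      exact ⟨⟨b, hb, rfl⟩, (tau_mem_FF x b).2 h⟩
  rw [h, ncard_image_of_injective _ (tau_injective x)]

lemma LL_LL_apply (x : Fin (m + 1) → Bool) (w : Row m → ℝ) : LL x (LL x w) = w :=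
  LinearMap.congr_fun (LL_LL x) w

lemma finrank_ker_th (x : Fin (m + 1) → Bool) :
    Module.finrank ℝ (LinearMap.ker (th x)) = 2 * m + 1 := by
  have h1 := LinearMap.finrank_range_add_finrank_ker (th x)
  have h2 : LinearMap.range (th x) = ⊤ := by
    rw [LinearMap.range_eq_top]
    intro t
    refine ⟨LL x (Pi.single .g t), ?_⟩
    rw [th_apply, LL_LL_apply]
    simp
  rw [h2, finrank_row, finrank_top, Module.finrank_self] at h1
  omega

/-- The rank of the hyperplane `F_x`. -/
lemma rk_FF (x : Fin (m + 1) → Bool) : rk (MM m) (FF x) = 2 * m + 1 := by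
  obtain ⟨I, hI⟩ := (MM m).exists_isBasis (FF x) (subset_univ _)
  have hli : LinearIndepOn ℝ (col : Edge m → Row m → ℝ) I := hI.indep
  have hspan : Submodule.span ℝ (col '' I) = LinearMap.ker (th x) := by
    apply le_antisymm
    · rw [Submodule.span_le]
      rintro _ ⟨e, he, rfl⟩
      have h2 : col (tau x e) .g = 0 := hI.subset he
      rw [SetLike.mem_coe, LinearMap.mem_ker, th_apply, LL_col, h2]
    · have hT : ∀ b : Row m, b ≠ .g → col (tau x (io b)) ∈ Submodule.span ℝ (col '' I) := by
        intro b hb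
        apply mem_span_of_isBasis hI
        rw [tau_mem_FF, io_mem_F0]
        exact hb
      intro w hw
      rw [LinearMap.mem_ker, th_apply] at hw
      rw [← LL_LL_apply x w, ← Finset.univ_sum_single (LL x w), map_sum]
      apply Submodule.sum_mem
      intro b _
      have : (Pi.single b (LL x w b) : Row m → ℝ) = (LL x w b) • Pi.single b 1 := by
        rw [← Pi.single_smul']
        simp
      rw [this, map_smul, LL_single]
      by_cases hb : b = .g
      · rw [hb, hw, zero_smul]
        exact Submodule.zero_mem _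
      · exact Submodule.smul_mem _ _ (hT b hb)
  have hIc : I.ncard = 2 * m + 1 := by
    rw [← finrank_span_image hli, hspan, finrank_ker_th]
  rw [rk, ← hI.encard_eq_eRk, ← hIc]
  rfl

/-- Membership of base incidence vectors in the face of `F_x`. -/
lemma tau_chi_mem (x : Fin (m + 1) → Bool) {B : Set (Edge m)} (hB : (MM m).IsBase B)
    (h : (B ∩ F0 m).ncard = 2 * m + 1) : chi (tau x '' B) ∈ tightFace (MM m) (FF x) := by
  apply chi_mem_tightFace (isBase_tau x hB)
  rw [tau_inter, h, rk_FF]

lemma single_sub_comm_mem {S : Submodule ℝ (Edge m → ℝ)} {a b : Edge m}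
    (h : (Pi.single a 1 - Pi.single b 1 : Edge m → ℝ) ∈ S) :
    (Pi.single b 1 - Pi.single a 1 : Edge m → ℝ) ∈ S := by
  have := S.neg_mem h
  simpa using this

lemma single_sub_trans_mem {S : Submodule ℝ (Edge m → ℝ)} {a b c : Edge m}
    (h : (Pi.single a 1 - Pi.single b 1 : Edge m → ℝ) ∈ S)
    (h' : (Pi.single b 1 - Pi.single c 1 : Edge m → ℝ) ∈ S) :
    (Pi.single a 1 - Pi.single c 1 : Edge m → ℝ) ∈ S := by
  have := S.add_mem h h'
  simpa using this

/-- The exchanges inside the face of `F_x`. -/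
lemma exch (x : Fin (m + 1) → Bool) {b : Row m} {e : Edge m} (he : e ∉ SB m)
    (hb : col e b ≠ 0) (hbe : io b ∈ F0 m ↔ e ∈ F0 m) :
    (Pi.single (tau x (io b)) 1 - Pi.single (tau x e) 1 : Edge m → ℝ) ∈
      vectorSpan ℝ (tightFace (MM m) (FF x)) := by
  have hbm : io b ∈ SB m := ⟨b, rfl⟩
  apply exchange_mem (B := tau x '' SB m) (mem_image_of_mem _ hbm)
  · rintro ⟨e', he', h⟩
    rw [tau_injective x h] at he'
    exact he he'
  · exact tau_chi_mem x SB_isBase SB_inter_F0
  · have h1 : insert (tau x e) (tau x '' SB m \ {tau x (io b)}) =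
        tau x '' (insert e (SB m \ {io b})) := by
      rw [image_insert_eq, image_sdiff (tau_injective x), image_singleton]
    rw [h1]
    apply tau_chi_mem x (SB_exchange he hb)
    have hfin : (SB m ∩ F0 m).Finite := toFinite _
    by_cases hF : e ∈ F0 m
    · have hbF := hbe.2 hF
      have h2 : insert e (SB m \ {io b}) ∩ F0 m = insert e ((SB m ∩ F0 m) \ {io b}) := by
        ext a
        constructor
        · rintro ⟨rfl | ⟨h3, h4⟩, h5⟩
          · exact Or.inl rfl
          · exact Or.inr ⟨⟨h3, h5⟩, h4⟩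
        · rintro (rfl | ⟨⟨h3, h5⟩, h4⟩)
          · exact ⟨Or.inl rfl, hF⟩
          · exact ⟨Or.inr ⟨h3, h4⟩, h5⟩
      rw [h2, ncard_insert_of_notMem (fun h => he h.1.1), ncard_sdiff_singleton_of_mem
        (show io b ∈ SB m ∩ F0 m from ⟨hbm, hbF⟩),
        SB_inter_F0]
      omega
    · have hbF : io b ∉ F0 m := fun h => hF (hbe.1 h)
      have h2 : insert e (SB m \ {io b}) ∩ F0 m = SB m ∩ F0 m := by
        ext a
        constructor
        · rintro ⟨rfl | ⟨h3, h4⟩, h5⟩
          · exact absurd h5 hF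
          · exact ⟨h3, h5⟩
        · rintro ⟨h3, h5⟩
          refine ⟨Or.inr ⟨h3, ?_⟩, h5⟩
          rintro rfl
          exact hbF h5
      rw [h2, SB_inter_F0]

lemma not_mem_SB_lt (j : Fin (m + 1)) : (Edge.lev j true) ∉ SB m := by
  rintro ⟨b, hb⟩
  cases b <;> simp [io] at hb
lemma not_mem_SB_ft (j : Fin m) : (Edge.un j false true) ∉ SB m := by
  rintro ⟨b, hb⟩
  cases b <;> simp [io] at hb
lemma not_mem_SB_tf (j : Fin m) : (Edge.un j true false) ∉ SB m := by
  rintro ⟨b, hb⟩
  cases b <;> simp [io] at hb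
lemma not_mem_SB_tt (j : Fin m) : (Edge.un j true true) ∉ SB m := by
  rintro ⟨b, hb⟩
  cases b <;> simp [io] at hb

/-- All elements of `F0` are linked (after applying `tau x`) to the level edge `0`. -/
lemma linkF (x : Fin (m + 1) → Bool) : ∀ e ∈ F0 m,
    (Pi.single (tau x e) 1 - Pi.single (tau x (.lev 0 false)) 1 : Edge m → ℝ) ∈
      vectorSpan ℝ (tightFace (MM m) (FF x)) := by
  have hcs : ∀ j : Fin m, j.castSucc ≠ j.succ := by
    intro j h
    have := congrArg Fin.val h
    simp at this
  have ff : ∀ j : Fin (m + 1), (Edge.lev j false) ∈ F0 m := fun j => by simp [F0, col]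
  have fy : ∀ j : Fin m, (Edge.un j false false) ∈ F0 m := fun j => by simp [F0, col]
  have fft : ∀ j : Fin m, (Edge.un j false true) ∈ F0 m := fun j => by simp [F0, col]
  have ftf : ∀ j : Fin m, (Edge.un j true false) ∈ F0 m := fun j => by simp [F0, col]
  -- exchanges
  have e1 := fun j : Fin m => exch x (b := .y j) (not_mem_SB_ft j) (by simp [col])
    ⟨fun _ => fft j, fun _ => fy j⟩
  have e2 := fun j : Fin m => exch x (b := .y j) (not_mem_SB_tf j) (by simp [col])
    ⟨fun _ => ftf j, fun _ => fy j⟩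
  have e3 := fun j : Fin m => exch x (b := .f j.castSucc) (not_mem_SB_ft j)
    (by simp [col]) ⟨fun _ => fft j, fun _ => ff _⟩
  have e4 := fun j : Fin m => exch x (b := .f j.succ) (not_mem_SB_tf j)
    (by simp [col]) ⟨fun _ => ftf j, fun _ => ff _⟩
  simp only [io] at e1 e2 e3 e4
  have hlev : ∀ j : Fin (m + 1),
      (Pi.single (tau x (.lev j false)) 1 - Pi.single (tau x (.lev 0 false)) 1 : Edge m → ℝ) ∈
      vectorSpan ℝ (tightFace (MM m) (FF x)) := by
    intro j
    refine Fin.induction (by simp) (fun i hi => ?_) j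
    refine single_sub_trans_mem ?_ hi
    refine single_sub_trans_mem (e4 i) ?_
    refine single_sub_trans_mem (single_sub_comm_mem (e2 i)) ?_
    refine single_sub_trans_mem (e1 i) ?_
    exact single_sub_comm_mem (e3 i)
  intro e he
  rcases e with _ | ⟨j, _ | _⟩ | ⟨j, _ | _, _ | _⟩
  · simp [F0, col] at he
  · exact hlev j
  · simp [F0, col] at he
  · exact single_sub_trans_mem (e1 j) (single_sub_trans_mem (single_sub_comm_mem (e3 j)) (hlev _))
  · exact single_sub_trans_mem (single_sub_comm_mem (e3 j)) (hlev _)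
  · exact single_sub_trans_mem (single_sub_comm_mem (e4 j)) (hlev _)
  · simp [F0, col] at he

/-- All elements outside `F0` are linked (after applying `tau x`) to `g`. -/
lemma linkZ (x : Fin (m + 1) → Bool) : ∀ e ∉ F0 m,
    (Pi.single (tau x e) 1 - Pi.single (tau x .g) 1 : Edge m → ℝ) ∈
      vectorSpan ℝ (tightFace (MM m) (FF x)) := by
  have hg : (Edge.g : Edge m) ∉ F0 m := by simp [F0, col]
  intro e he
  rcases e with _ | ⟨j, _ | _⟩ | ⟨j, _ | _, _ | _⟩
  · simp
  · simp [F0, col] at he
  · exact single_sub_comm_mem (exch x (b := .g) (not_mem_SB_lt j) (by simp [col])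
      ⟨fun h => absurd h hg, fun h => absurd h he⟩)
  · simp [F0, col] at he
  · simp [F0, col] at he
  · simp [F0, col] at he
  · exact single_sub_comm_mem (exch x (b := .g) (not_mem_SB_tt j) (by simp [col])
      ⟨fun h => absurd h hg, fun h => absurd h he⟩)

/-- Every `F_x` is a flacet (as soon as there is at least one unit). -/
lemma FF_isFlacet (x : Fin (m + 1) → Bool) (hm : 0 < m) : IsFlacet (MM m) (FF x) := by
  refine ⟨FF_isFlat x, ⟨_, tau_chi_mem x SB_isBase SB_inter_F0⟩, ?_⟩
  apply facet_criterion (r := 2 * m + 2) (fun B hB => base_ncard hB)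
  · intro e he e' he'
    have h1 := linkF x (tau x e) he
    have h2 := linkF x (tau x e') he'
    rw [tau_tau] at h1 h2
    exact single_sub_trans_mem h1 (single_sub_comm_mem h2)
  · intro e he e' he'
    have h1 := linkZ x (tau x e) he
    have h2 := linkZ x (tau x e') he'
    rw [tau_tau] at h1 h2
    exact single_sub_trans_mem h1 (single_sub_comm_mem h2)
  · set j : Fin m := ⟨0, hm⟩ with hj
    refine ⟨tau x (io (.y j)), ?_, tau x (.un j true true), ?_, ?_⟩
    · rw [tau_mem_FF, io_mem_F0]
      simp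
    · rw [tau_mem_FF]
      simp [F0, col]
    · have hbm : io (.y j) ∈ SB m := ⟨_, rfl⟩
      apply exchange_mem' (B := tau x '' SB m) (mem_image_of_mem _ hbm)
      · rintro ⟨e', he', h⟩
        rw [tau_injective x h] at he'
        exact not_mem_SB_tt j he'
      · exact isBase_tau x SB_isBase
      · have h1 : insert (tau x (.un j true true)) (tau x '' SB m \ {tau x (io (.y j))}) =
            tau x '' (insert (.un j true true) (SB m \ {io (.y j)})) := by
          rw [image_insert_eq, image_sdiff (tau_injective x), image_singleton]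
        rw [h1]
        exact isBase_tau x (SB_exchange (not_mem_SB_tt j) (by simp [col]))

/-! ### The lower bound -/

/-- The complement of `F_x` in terms of the tracks. -/
lemma mem_compl_FF (x : Fin (m + 1) → Bool) (e : Edge m) : e ∉ FF x ↔
    (e = .g ∨ (∃ j, e = .lev j (!x j)) ∨ ∃ j : Fin m, e = .un j (!x j.castSucc) (!x j.succ)) := by
  rw [mem_FF]
  rcases e with _ | ⟨j, b⟩ | ⟨j, b, b'⟩
  · simp [tau, F0, col]
  · have h : tau x (.lev j b) ∉ F0 m ↔ b = !x j := by
      simp only [tau]
      cases b <;> cases x j <;> simp [F0, col]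
    rw [h]
    simp
  · have h : tau x (.un j b b') ∉ F0 m ↔ (b = !x j.castSucc ∧ b' = !x j.succ) := by
      simp only [tau]
      cases b <;> cases b' <;> cases x j.castSucc <;> cases x j.succ <;> simp [F0, col]
    rw [h]
    simp

/-- A base that has full intersection with `F_x` has exactly one element outside `F_x`. -/
lemma one_outside (x : Fin (m + 1) → Bool) {B : Set (Edge m)} (hB : (MM m).IsBase B)
    (h : (B ∩ FF x).ncard = rk (MM m) (FF x)) : (B \ FF x).ncard = 1 := by
  have h1 := ncard_inter_add_ncard_sdiff_eq_ncard B (FF x) (toFinite _)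
  rw [h, rk_FF, base_ncard hB] at h1
  omega

/-- Every base meets the support of every row. -/
lemma base_meets {B : Set (Edge m)} (hB : (MM m).IsBase B) (r : Row m) :
    ∃ e ∈ B, col e r ≠ 0 := by
  by_contra hcon
  push Not at hcon
  have hs := ((isBase_iff span_col B).1 hB).2
  have hle : Submodule.span ℝ (col '' B) ≤
      LinearMap.ker (LinearMap.proj r : (Row m → ℝ) →ₗ[ℝ] ℝ) := by
    rw [Submodule.span_le]
    rintro _ ⟨e, he, rfl⟩
    exact hcon e he
  rw [hs] at hle
  have := hle (Submodule.mem_top (x := Pi.single r 1))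
  simp at this

/-- The support of the row `f j`. -/
lemma supp_f {j : Fin (m + 1)} {e : Edge m} (h : col e (.f j) ≠ 0) :
    (∃ b, e = .lev j b) ∨ (∃ i : Fin m, i.castSucc = j ∧ ∃ b, e = .un i b true) ∨
      (∃ i : Fin m, i.succ = j ∧ ∃ b, e = .un i true b) := by
  rcases e with _ | ⟨i, _ | _⟩ | ⟨i, _ | _, _ | _⟩
  · simp [col] at h
  · left
    by_cases hij : i = j
    · subst hij
      exact ⟨_, rfl⟩
    · simp [col, Pi.single_apply, Ne.symm hij] at h
  · left
    by_cases hij : i = j
    · subst hij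
      exact ⟨_, rfl⟩
    · simp [col, Pi.single_apply, Ne.symm hij] at h
  · simp [col] at h
  · right; left
    by_cases hij : i.castSucc = j
    · exact ⟨i, hij, _, rfl⟩
    · simp [col, Pi.single_apply, Ne.symm hij] at h
  · right; right
    by_cases hij : i.succ = j
    · exact ⟨i, hij, _, rfl⟩
    · simp [col, Pi.single_apply, Ne.symm hij] at h
  · by_cases hij : i.castSucc = j
    · right; left
      exact ⟨i, hij, _, rfl⟩
    · by_cases hij' : i.succ = j
      · right; right
        exact ⟨i, hij', _, rfl⟩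
      · simp [col, Pi.single_apply, Ne.symm hij, Ne.symm hij'] at h

/-- The position of an edge along the graph. -/
def pos : Edge m → ℕ
  | .g => 0
  | .lev j _ => 2 * j
  | .un i _ _ => 2 * i + 1

lemma pos_of_supp {j : Fin (m + 1)} {e : Edge m} (h : col e (.f j) ≠ 0) :
    2 * (j : ℕ) ≤ pos e + 1 ∧ pos e ≤ 2 * (j : ℕ) + 1 := by
  rcases supp_f h with ⟨b, rfl⟩ | ⟨i, rfl, b, rfl⟩ | ⟨i, rfl, b, rfl⟩
  · simp only [pos]
    omega
  · simp only [pos, Fin.val_castSucc]
    omega
  · simp only [pos, Fin.val_succ]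
    omega

/-- The codeword of `z`: the tracks are switched according to `z q` at the levels `6 q + 1`,
`6 q + 3`, `6 q + 5`. -/
def code {n : ℕ} (z : Fin n → Bool) : Fin (6 * n + 1) → Bool := fun j =>
  if h : (j : ℕ) % 2 = 1 then z ⟨(j : ℕ) / 6, by have := j.2; omega⟩ else false

lemma code_even {n : ℕ} (z : Fin n → Bool) (j : Fin (6 * n + 1)) (h : (j : ℕ) % 2 = 0) :
    code z j = false := by
  unfold code
  rw [dif_neg (by omega)]

lemma code_odd {n : ℕ} (z : Fin n → Bool) (j : Fin (6 * n + 1)) (q : Fin n) (s : ℕ) (hs : s < 3)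
    (h : (j : ℕ) = 6 * q + 2 * s + 1) : code z j = z q := by
  unfold code
  rw [dif_pos (by omega)]
  congr 1
  apply Fin.ext
  simp only
  omega

/-- The support of the row `f j` is contained in the union of the two cocircuits. -/
lemma supp_sub {n : ℕ} {z z' : Fin n → Bool} {q : Fin n} (hq : z q ≠ z' q)
    {j : Fin (6 * n + 1)} {s : ℕ} (hs : s < 3) (hj : (j : ℕ) = 6 * q + 2 * s + 1)
    {e : Edge (6 * n)} (h : col e (.f j) ≠ 0) : e ∉ FF (code z) ∨ e ∉ FF (code z') := by
  have h1 := code_odd z j q s hs hj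
  have h2 := code_odd z' j q s hs hj
  rw [mem_compl_FF, mem_compl_FF]
  rcases supp_f h with ⟨b, rfl⟩ | ⟨i, rfl, b, rfl⟩ | ⟨i, rfl, b, rfl⟩
  · by_cases hb : b = !z q
    · left; right; left
      exact ⟨j, by rw [h1, hb]⟩
    · right; right; left
      refine ⟨j, ?_⟩
      rw [h2]
      cases hz : z q <;> cases hz' : z' q <;> cases b <;> simp_all
  · have e1 : code z i.succ = false := code_even z _ (by simp at hj ⊢; omega)
    have e2 : code z' i.succ = false := code_even z' _ (by simp at hj ⊢; omega)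
    by_cases hb : b = !z q
    · left; right; right
      exact ⟨i, by rw [h1, e1, hb]; rfl⟩
    · right; right; right
      refine ⟨i, ?_⟩
      rw [h2, e2]
      cases hz : z q <;> cases hz' : z' q <;> cases b <;> simp_all
  · have e1 : code z i.castSucc = false := code_even z _ (by simp at hj ⊢; omega)
    have e2 : code z' i.castSucc = false := code_even z' _ (by simp at hj ⊢; omega)
    by_cases hb : b = !z q
    · left; right; right
      exact ⟨i, by rw [h1, e1, hb]; rfl⟩
    · right; right; right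
      refine ⟨i, ?_⟩
      rw [h2, e2]
      cases hz : z q <;> cases hz' : z' q <;> cases b <;> simp_all

/-- A base cannot have full intersection with the flacets of two different codewords. -/
lemma hit_unique {n : ℕ} {z z' : Fin n → Bool} (hz : z ≠ z') {B : Set (Edge (6 * n))}
    (hB : (MM (6 * n)).IsBase B)
    (h : (B ∩ FF (code z)).ncard = rk (MM (6 * n)) (FF (code z)))
    (h' : (B ∩ FF (code z')).ncard = rk (MM (6 * n)) (FF (code z'))) : False := by
  obtain ⟨q, hq⟩ := Function.ne_iff.1 hz
  obtain ⟨u, hu⟩ := ncard_eq_one.1 (one_outside _ hB h)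
  obtain ⟨u', hu'⟩ := ncard_eq_one.1 (one_outside _ hB h')
  have key : ∀ s : ℕ, s < 3 → ∃ e, (e = u ∨ e = u') ∧
      2 * (6 * (q : ℕ) + 2 * s + 1) ≤ pos e + 1 ∧ pos e ≤ 2 * (6 * (q : ℕ) + 2 * s + 1) + 1 := by
    intro s hs
    have hlt : 6 * (q : ℕ) + 2 * s + 1 < 6 * n + 1 := by
      have := q.2
      omega
    obtain ⟨e, heB, he⟩ := base_meets hB (.f ⟨6 * (q : ℕ) + 2 * s + 1, hlt⟩)
    refine ⟨e, ?_, pos_of_supp he⟩
    rcases supp_sub hq hs rfl he with h1 | h1
    · left
      have : e ∈ B \ FF (code z) := ⟨heB, h1⟩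
      rwa [hu, mem_singleton_iff] at this
    · right
      have : e ∈ B \ FF (code z') := ⟨heB, h1⟩
      rwa [hu', mem_singleton_iff] at this
  obtain ⟨e0, h0, h0'⟩ := key 0 (by norm_num)
  obtain ⟨e1, h1, h1'⟩ := key 1 (by norm_num)
  obtain ⟨e2, h2, h2'⟩ := key 2 (by norm_num)
  rcases h0 with rfl | rfl <;> rcases h1 with rfl | rfl <;> rcases h2 with rfl | rfl <;> omega

/-- The family of all bases is a hitting family. -/
lemma exists_hitting {ε : Type} [Fintype ε] (M : Matroid ε) :
    ∃ 𝒱 : Finset (Set ε), IsHittingFamily M 𝒱 := by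
  classical
  refine ⟨(toFinite {B : Set ε | M.IsBase B}).toFinset, ?_, ?_⟩
  · intro B hB
    simpa using hB
  · intro F hF
    obtain ⟨I, hI⟩ := M.exists_isBasis F hF.1.subset_ground
    obtain ⟨B, hB, hIB⟩ := hI.indep.exists_isBase_superset
    refine ⟨B, by simpa using hB, ?_⟩
    have h1 : B ∩ F = I := by
      apply Subset.antisymm
      · intro e he
        apply hI.mem_of_insert_indep he.2
        exact hB.indep.subset (insert_subset he.1 hIB)
      · exact subset_inter hIB hI.subset
    rw [h1, rk, ← hI.encard_eq_eRk]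
    rfl

/-- The exponential lower bound on the hitting number. -/
lemma two_pow_le_hittingNumber (n : ℕ) (hn : 0 < n) : 2 ^ n ≤ hittingNumber (MM (6 * n)) := by
  classical
  have hne : {k | ∃ 𝒱 : Finset (Set (Edge (6 * n))), 𝒱.card = k ∧
      IsHittingFamily (MM (6 * n)) 𝒱}.Nonempty := by
    obtain ⟨𝒱, h⟩ := exists_hitting (MM (6 * n))
    exact ⟨_, 𝒱, rfl, h⟩
  obtain ⟨𝒱, hcard, hbase, hhit⟩ := Nat.sInf_mem hne
  rw [hittingNumber, ← hcard]
  choose B hB hBF using fun z : Fin n → Bool => hhit _ (FF_isFlacet (code z) (by omega))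
  have h1 : (Finset.univ : Finset (Fin n → Bool)).card ≤ 𝒱.card := by
    apply Finset.card_le_card_of_injOn B (fun z _ => hB z)
    intro z _ z' _ hzz
    by_contra hne'
    exact hit_unique hne' (hbase _ (hB z)) (hBF z) (by rw [hzz]; exact hBF z')
  simpa using h1

lemma mat_complete (m : ℕ) : IsComplete (mat m) := by
  refine ⟨mat_tu, fun c hc h => hc ?_⟩
  obtain ⟨e, t, het⟩ := complete_mat h
  exact ⟨e, t, het⟩

lemma mat_rank (m : ℕ) : (mat m).rank = 2 * m + 2 := by
  rw [Matrix.rank_eq_finrank_span_cols]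
  have : (mat m).col = (col : Edge m → Row m → ℝ) := rfl
  rw [this, span_col, finrank_top, finrank_row]

lemma represents (m : ℕ) : Represents (mat m) (MM m) := ⟨rfl, fun _ => Iff.rfl⟩

lemma col_ne_zero (e : Edge m) : col e ≠ 0 := by
  intro h
  rcases e with _ | ⟨j, _ | _⟩ | ⟨j, _ | _, _ | _⟩
  · have := congrFun h .g
    simp [col] at this
  · have := congrFun h (.f j)
    simp [col] at this
  · have := congrFun h .g
    simp [col] at this
  · have := congrFun h (.y j)
    simp [col] at this
  · have := congrFun h (.y j)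
    simp [col] at this
  · have := congrFun h (.y j)
    simp [col] at this
  · have := congrFun h .g
    simp [col] at this

lemma MM_loopless (m : ℕ) : (MM m).Loopless := by
  rw [Matroid.loopless_iff_forall_isNonloop]
  intro e _
  rw [← Matroid.indep_singleton]
  exact LinearIndepOn.singleton (col_ne_zero e)

lemma MM_eRank (m : ℕ) : (MM m).eRank = ((2 * m + 2 : ℕ) : ℕ∞) := by
  rw [← (SB_isBase (m := m)).encard_eq_eRank, ← base_ncard (SB_isBase (m := m)),
    (toFinite (SB m)).cast_ncard_eq]

end final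

/-! ## Exponentials beat polynomials -/

lemma poly_tendsto (q : Polynomial ℝ) :
    Filter.Tendsto (fun n : ℕ => q.eval (n : ℝ) / 2 ^ n) Filter.atTop (nhds 0) := by
  induction q using Polynomial.induction_on' with
  | add p q hp hq =>
    have := hp.add hq
    simpa [add_div] using this
  | monomial k a =>
    have := (tendsto_pow_const_div_const_pow_of_one_lt k (one_lt_two (α := ℝ))).const_mul a
    simpa [mul_div_assoc] using this

lemma exists_large (p : Polynomial ℝ) :
    ∃ n : ℕ, 0 < n ∧ p.eval ((2 * (6 * n) + 2 : ℕ) : ℝ) < 2 ^ n := by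
  have h := poly_tendsto (p.comp (Polynomial.C 12 * Polynomial.X + Polynomial.C 2))
  have h1 := (h.eventually (gt_mem_nhds one_pos)).and (Filter.eventually_gt_atTop 0)
  obtain ⟨n, hn, hn0⟩ := h1.exists
  refine ⟨n, hn0, ?_⟩
  rw [div_lt_one (by positivity)] at hn
  have he : p.eval ((2 * (6 * n) + 2 : ℕ) : ℝ) =
      (p.comp (Polynomial.C 12 * Polynomial.X + Polynomial.C 2)).eval (n : ℝ) := by
    rw [Polynomial.eval_comp]
    congr 1
    simp
    ring
  rw [he]
  exact hn

/-- **Negative answer to Q1.** For every polynomial `p` there is a complete regular (loopless)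
matroid `M`, represented by the complete totally unimodular matrix `A` of full row rank
`r = rk(M)`, whose hitting number is larger than `p(r)`. -/
theorem result : ∀ p : Polynomial ℝ,
    ∃ (ρ ε : Type) (_ : Fintype ρ) (_ : Fintype ε) (A : Matrix ρ ε ℝ) (M : Matroid ε),
      IsComplete A ∧ A.rank = Fintype.card ρ ∧ Represents A M ∧ M.Loopless ∧
      M.eRank = (Fintype.card ρ : ℕ∞) ∧
      p.eval (Fintype.card ρ : ℝ) < (hittingNumber M : ℝ) := by
  intro p
  obtain ⟨n, hn, hp⟩ := exists_large p
  refine ⟨Row (6 * n), Edge (6 * n), inferInstance, inferInstance, mat (6 * n), MM (6 * n),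
    mat_complete _, ?_, represents _, MM_loopless _, ?_, ?_⟩
  · rw [mat_rank, card_row]
  · rw [MM_eRank, card_row]
  · rw [card_row]
    refine hp.trans_le ?_
    exact_mod_cast two_pow_le_hittingNumber n hn

end Pool.Agent.Results.MP_ed59c7_co.ExpHitting
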